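import Pool.Agent.Helper54.NCM.Defs

/-!
# Finite coproducts of dg categories
-/

open CategoryTheory

namespace Pool.Agent.Helper54.NCM

variable {k : Type} [Field k]

/-- The empty dg category. -/
def empty (k : Type) [Field k] : DGCat k where
  Obj := Empty
  Hom X _ _ := X.elim
  acg X _ _ := X.elim
  mod X _ _ := X.elim
  d {X} := X.elim
  one X := X.elim
  comp {X} := X.elim
  d_d {X} := X.elim
  one_comp {X} := X.elim
  comp_one {X} := X.elim
  assoc {W} := W.elim
  leibniz {X} := X.elim

/-- Morphisms in the disjoint union of two dg categories: no nonzero morphisms between the two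
parts. -/
def sumHom (A B : DGCat k) : A.Obj ⊕ B.Obj → A.Obj ⊕ B.Obj → ℤ → Type
  | .inl X, .inl Y, n => A.Hom X Y n
  | .inr X, .inr Y, n => B.Hom X Y n
  | .inl _, .inr _, _ => PUnit
  | .inr _, .inl _, _ => PUnit

/-- The disjoint union (coproduct) `A ⊔ B` of two dg categories. -/
def disjUnion (A B : DGCat k) : DGCat k where
  Obj := A.Obj ⊕ B.Obj
  Hom := sumHom A B
  acg
    | .inl _, .inl _, _ => inferInstanceAs (AddCommGroup (A.Hom _ _ _))
    | .inr _, .inr _, _ => inferInstanceAs (AddCommGroup (B.Hom _ _ _))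
    | .inl _, .inr _, _ => inferInstanceAs (AddCommGroup PUnit)
    | .inr _, .inl _, _ => inferInstanceAs (AddCommGroup PUnit)
  mod
    | .inl _, .inl _, _ => inferInstanceAs (Module k (A.Hom _ _ _))
    | .inr _, .inr _, _ => inferInstanceAs (Module k (B.Hom _ _ _))
    | .inl _, .inr _, _ => inferInstanceAs (Module k PUnit)
    | .inr _, .inl _, _ => inferInstanceAs (Module k PUnit)
  d {X Y _ _} h := match X, Y with
    | .inl _, .inl _ => A.d h
    | .inr _, .inr _ => B.d h
    | .inl _, .inr _ => 0
    | .inr _, .inl _ => 0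
  one
    | .inl X => A.one X
    | .inr X => B.one X
  comp {X Y Z _ _ _} h := match X, Y, Z with
    | .inl _, .inl _, .inl _ => A.comp h
    | .inr _, .inr _, .inr _ => B.comp h
    | .inl _, .inl _, .inr _ => 0
    | .inl _, .inr _, .inl _ => 0
    | .inl _, .inr _, .inr _ => 0
    | .inr _, .inl _, .inl _ => 0
    | .inr _, .inl _, .inr _ => 0
    | .inr _, .inr _, .inl _ => 0
  d_d {X Y _ _ _} h h' f := match X, Y with
    | .inl _, .inl _ => A.d_d h h' f
    | .inr _, .inr _ => B.d_d h h' f
    | .inl _, .inr _ => rfl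
    | .inr _, .inl _ => rfl
  one_comp {X Y _} f := match X, Y with
    | .inl _, .inl _ => A.one_comp f
    | .inr _, .inr _ => B.one_comp f
    | .inl _, .inr _ => rfl
    | .inr _, .inl _ => rfl
  comp_one {X Y _} f := match X, Y with
    | .inl _, .inl _ => A.comp_one f
    | .inr _, .inr _ => B.comp_one f
    | .inl _, .inr _ => rfl
    | .inr _, .inl _ => rfl
  assoc {W X Y Z _ _ _ _ _ _} hab hbc h₁ h₂ x y z := by
    rcases W with W | W <;> rcases X with X | X <;> rcases Y with Y | Y <;> rcases Z with Z | Z
    case inl.inl.inl.inl => exact A.assoc hab hbc h₁ h₂ x y z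
    case inr.inr.inr.inr => exact B.assoc hab hbc h₁ h₂ x y z
    all_goals first
      | rfl
      | exact LinearMap.congr_fun (map_zero (A.comp h₁)) z
      | exact LinearMap.congr_fun (map_zero (B.comp h₁)) z
      | exact (map_zero ((A.comp h₂) x)).symm
      | exact (map_zero ((B.comp h₂) x)).symm
  leibniz {X Y Z _ _ _ _ _ _} h hm hn hp h₁ h₂ g f := by
    rcases X with X | X <;> rcases Y with Y | Y <;> rcases Z with Z | Z
    case inl.inl.inl => exact A.leibniz h hm hn hp h₁ h₂ g f
    case inr.inr.inr => exact B.leibniz h hm hn hp h₁ h₂ g f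
    all_goals first
      | (simp; done)
      | (simp; exact map_zero (A.d hp))
      | (simp; exact map_zero (B.d hp))

end Pool.Agent.Helper54.NCM
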