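import Pool.Agent.Helper54.NCM.SmoothMain
import Pool.Agent.Helper54.NCM.Coprod
import Pool.Agent.Helper5.NCM.Q
import Pool.Agent.Helper23.NCM.F
import Pool.Agent.Helper35.NCM.M

/-!
# Assembly of the disproof
-/

open CategoryTheory MonoidalCategory Limits

namespace Pool.Agent.Helper54.NCM

universe v u

section cell

variable {k : Type} [Field k] {X Y : Type} (ρ : Y → FreeAlgebra k X)

theorem exists_primitive (a : FreeAlgebra k X) (ha : a ∈ TwoSidedIdeal.span (Set.range ρ)) :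
    ∃ h : FA k X Y, h ∈ gradeOf mb wtW (-1) ∧ fd ρ h = emb a := by
  induction ha using TwoSidedIdeal.span_induction with
  | mem x hx =>
    obtain ⟨y, rfl⟩ := hx
    refine ⟨mon [Sum.inr y], ?_, ?_⟩
    · simpa [wtW, wtG] using mon_mem (k := k) [Sum.inr y]
    · rw [fd_mon]; simp [dW, R, mon_nil]
  | zero => exact ⟨0, Submodule.zero_mem _, by simp⟩
  | add x y _ _ hx hy =>
    obtain ⟨h, h1, h2⟩ := hx
    obtain ⟨h', h1', h2'⟩ := hy
    exact ⟨h + h', Submodule.add_mem _ h1 h1', by rw [map_add, map_add, h2, h2']⟩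
  | neg x _ hx =>
    obtain ⟨h, h1, h2⟩ := hx
    exact ⟨-h, Submodule.neg_mem _ h1, by rw [map_neg, map_neg, h2]⟩
  | left_absorb a x _ hx =>
    obtain ⟨h, h1, h2⟩ := hx
    refine ⟨emb a * h, by simpa using fmul_mem (emb_mem a) h1, ?_⟩
    rw [fd_mul, fd_emb, h2, fα, sgn_of_mem (emb_mem a)]
    simp
  | right_absorb b x _ hx =>
    obtain ⟨h, h1, h2⟩ := hx
    refine ⟨h * emb b, by simpa using fmul_mem h1 (emb_mem b), ?_⟩
    rw [fd_mul, fd_emb, h2]
    simp

variable {M : Type} [Ring M] [Algebra k M] (σ : FreeAlgebra k X →ₐ[k] M)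

/-- the extension of a representation of the free algebra on `X`, by zero on `Y` -/
noncomputable def ext0 : FA k X Y →ₐ[k] M :=
  MonoidAlgebra.lift k M (FreeMonoid (X ⊕ Y))
    (FreeMonoid.lift (Sum.elim (fun x => σ (FreeAlgebra.ι k x)) 0))

theorem ext0_mon (w : List (X ⊕ Y)) : (ext0 σ (mon w) : M) =
    (w.map (Sum.elim (fun x => σ (FreeAlgebra.ι k x)) 0)).prod := by
  simp only [ext0, mon, MonoidAlgebra.lift_single, one_smul]
  rw [FreeMonoid.lift_apply, FreeMonoid.toList_ofList]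

theorem ext0_emb (a : FreeAlgebra k X) : ext0 σ (emb a : FA k X Y) = σ a := by
  have : (ext0 (Y := Y) σ).comp emb = σ := by
    refine FreeAlgebra.hom_ext ?_
    funext x
    simp [emb, ext0_mon]
  exact AlgHom.congr_fun this a

theorem ext0_of_wt (w : List (X ⊕ Y)) (hw : wtW w ≠ 0) : (ext0 σ (mon w) : M) = 0 := by
  rw [ext0_mon]
  induction w with
  | nil => simp [wtW] at hw
  | cons g w ih =>
    rw [List.map_cons, List.prod_cons]
    rcases g with x | y
    · rw [ih (by simpa [wtW, wtG] using hw), mul_zero]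
    · simp

theorem ext0_deg {i : ℤ} {a : FA k X Y} (hi : i ≠ 0) (ha : a ∈ gradeOf mb wtW i) :
    ext0 σ a = 0 := by
  have : gradeOf mb wtW i ≤ LinearMap.ker (ext0 σ : FA k X Y →ₐ[k] M).toLinearMap := by
    refine Submodule.span_le.2 ?_
    rintro _ ⟨w, hw, rfl⟩
    have hw' : wtW w = i := hw
    rw [mb_apply]
    exact ext0_of_wt σ w (by rw [hw']; exact hi)
  exact this ha

theorem ext0_d (hσ : ∀ y, σ (ρ y) = 0) (a : FA k X Y) : ext0 σ (fd ρ a) = 0 := by
  have : (ext0 σ : FA k X Y →ₐ[k] M).toLinearMap ∘ₗ fd ρ = 0 := by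
    refine mb.ext fun w => ?_
    rw [LinearMap.comp_apply, mb_apply, fd_mon]
    change ext0 σ (dW ρ w) = 0
    induction w with
    | nil => simp [dW]
    | cons g w ih =>
      rw [dW, map_add, map_zsmul, map_mul, map_mul, ih]
      have : ext0 σ (R ρ g) = 0 := by
        rcases g with x | y
        · simp [R]
        · simp only [R, Sum.elim_inr]; rw [ext0_emb, hσ]
      rw [this]; simp
  exact LinearMap.congr_fun this a

end cell

theorem main (k : Type) [Field k] (h2 : (2 : k) ≠ 0) :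
    ∃ A : DGAlg k, A.IsSmooth ∧
      ∀ (C : Type u) [Category.{v} C] [Preadditive C] [Linear ℚ C] [MonoidalCategory C]
        [SymmetricCategory C] [MonoidalPreadditive C] [MonoidalLinear ℚ C]
        (U : DGCat k ⥤ C) [PreservesFiniteCoproducts U],
        (∀ {A B : DGCat k} (F : A ⟶ B), IsMoritaEquiv F → IsIso (U.map F)) →
        Nonempty (U.obj (unit k) ≅ 𝟙_ C) → ¬ IsZero (𝟙_ C) →
        ¬ IsSchurFinite (U.obj A.toDGCat) := by
  refine ⟨(cellB (Pool.Agent.Helper5.NCM.rel k)).toDGAlg, cell_isSmooth _, ?_⟩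
  intro C _ _ _ _ _ _ _ U _ hU ⟨φ⟩ h0
  refine Pool.Agent.Helper23.NCM.not_isSchurFinite _ h0 fun n => ?_
  obtain ⟨e, m, ρ, he, hρ, hdet⟩ := Pool.Agent.Helper5.NCM.exists_pairing k h2 n
  choose h hh dh using fun l => exists_primitive (Pool.Agent.Helper5.NCM.rel k) _ (he l)
  obtain ⟨ι, π, hιπ⟩ := Pool.Agent.Helper35.NCM.exists_pairing_maps
    (cellB (Pool.Agent.Helper5.NCM.rel k)).toDGAlg n
    (fun l => (emb (e l) : FA k (Fin 5) (Fin 8))) h (fun l => emb_mem (e l)) hh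
    (fun l => fd_emb _ (e l))
    (fun l => by
      refine (dh l).trans ?_
      rw [map_sub, map_mul]
      rfl)
    m (fun j => ext0 (ρ j)) (fun j i a hi ha => ext0_deg (ρ j) hi ha)
    (fun j a => ext0_d _ (ρ j) (hρ j) a) U hU
  have hr : ∀ l j, ι l ≫ π j = (((ρ j (e l)).rank : ℕ) : ℚ) • 𝟙 (U.obj (unit k)) := by
    intro l j
    rw [hιπ, Nat.cast_smul_eq_nsmul]
    have : ext0 (ρ j) (emb (e l) : FA k (Fin 5) (Fin 8)) = ρ j (e l) := ext0_emb _ _
    exact congrArg (fun t : Matrix _ _ k => (t.rank : ℕ) • 𝟙 (U.obj (unit k))) this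
  set N : Matrix (Fin n) (Fin n) ℚ := Matrix.of fun j l : Fin n => (((ρ j (e l)).rank : ℕ) : ℚ) with hN
  refine ⟨fun a => φ.inv ≫ ι a, fun b => (∑ j, (N⁻¹ b j) • π j) ≫ φ.hom, fun a b => ?_⟩
  have key : ι a ≫ (∑ j, (N⁻¹ b j) • π j) = (if a = b then (1 : ℚ) else 0) • 𝟙 (U.obj (unit k)) := by
    rw [Preadditive.comp_sum]
    have : ∀ j, ι a ≫ ((N⁻¹ b j) • π j) = (N⁻¹ b j * N j a) • 𝟙 (U.obj (unit k)) := by
      intro j
      rw [Linear.comp_smul, hr, smul_smul]; rfl
    simp only [this]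
    rw [← Finset.sum_smul]
    congr 1
    have h1 : (N⁻¹ * N) b a = (1 : Matrix (Fin n) (Fin n) ℚ) b a := by
      rw [Matrix.nonsing_inv_mul _ (Ne.isUnit hdet)]
    rw [Matrix.mul_apply] at h1
    rw [h1, Matrix.one_apply]
    simp only [eq_comm]
  rw [Category.assoc, ← Category.assoc (ι a), key]
  by_cases hab : a = b
  · simp [hab]
  · simp [hab]

end Pool.Agent.Helper54.NCM
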