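import Pool.Agent.Helper54.NCM.Defs

/-!
# Modules graded by means of a homogeneous basis
-/

namespace Pool.Agent.Helper54.NCM

open scoped TensorProduct

variable {k : Type} [Field k]

section grade

variable {ι κ M N P : Type} [AddCommGroup M] [Module k M] [AddCommGroup N] [Module k N]
  [AddCommGroup P] [Module k P]

/-- The grading for which the basis vector `b i` is homogeneous of degree `wt i`. -/
def gradeOf (b : Module.Basis ι k M) (wt : ι → ℤ) (n : ℤ) : Submodule k M :=
  Submodule.span k (b '' {i | wt i = n})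

theorem basis_mem_gradeOf (b : Module.Basis ι k M) (wt : ι → ℤ) (i : ι) :
    b i ∈ gradeOf b wt (wt i) := Submodule.subset_span ⟨i, rfl, rfl⟩

theorem gradeOf_internal (b : Module.Basis ι k M) (wt : ι → ℤ) :
    DirectSum.IsInternal (gradeOf b wt) := by
  classical
  rw [DirectSum.isInternal_submodule_iff_iSupIndep_and_iSup_eq_top]
  constructor
  · intro n
    have : (⨆ j, ⨆ (_ : j ≠ n), gradeOf b wt j) ≤ Submodule.span k (b '' {i | wt i ≠ n}) := by
      refine iSup₂_le fun j hj => ?_
      refine Submodule.span_mono (Set.image_mono ?_)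
      intro i hi
      simp only [Set.mem_setOf_eq] at hi ⊢
      omega
    refine Disjoint.mono_right this ?_
    refine b.linearIndependent.disjoint_span_image ?_
    rw [Set.disjoint_left]
    intro i h1 h2
    exact h2 h1
  · rw [eq_top_iff, ← b.span_eq, Submodule.span_le]
    rintro _ ⟨i, rfl⟩
    exact Submodule.mem_iSup_of_mem (wt i) (basis_mem_gradeOf b wt i)

theorem map_mem_gradeOf {b : Module.Basis ι k M} {wt : ι → ℤ} {S : ℤ → Submodule k N}
    (f : M →ₗ[k] N) (c : ℤ) (h : ∀ i, f (b i) ∈ S (wt i + c)) {n : ℤ} {m : M}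
    (hm : m ∈ gradeOf b wt n) : f m ∈ S (n + c) := by
  have : gradeOf b wt n ≤ (S (n + c)).comap f := by
    refine Submodule.span_le.2 ?_
    rintro _ ⟨i, hi, rfl⟩
    simp only [Set.mem_setOf_eq] at hi
    subst hi
    exact h i
  exact this hm

theorem map₂_mem_gradeOf {b : Module.Basis ι k M} {wt : ι → ℤ} {b' : Module.Basis κ k N}
    {wt' : κ → ℤ} {S : ℤ → Submodule k P}
    (f : M →ₗ[k] N →ₗ[k] P) (h : ∀ i j, f (b i) (b' j) ∈ S (wt i + wt' j)) {m n : ℤ}
    {x : M} {y : N} (hx : x ∈ gradeOf b wt m) (hy : y ∈ gradeOf b' wt' n) :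
    f x y ∈ S (m + n) := by
  have h1 : ∀ i, f (b i) y ∈ S (wt i + n) := by
    intro i
    have := map_mem_gradeOf (S := S) (f (b i)) (wt i)
      (fun j => by rw [add_comm]; exact h i j) hy
    rwa [add_comm] at this
  exact map_mem_gradeOf (S := S) (f.flip y) n h1 hx

/-- The sign involution `b i ↦ (-1)^(wt i) b i`. -/
noncomputable def sgn (b : Module.Basis ι k M) (wt : ι → ℤ) : M →ₗ[k] M :=
  b.constr k fun i => ((wt i).negOnePow : ℤ) • b i

@[simp] theorem sgn_basis (b : Module.Basis ι k M) (wt : ι → ℤ) (i : ι) :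
    sgn b wt (b i) = ((wt i).negOnePow : ℤ) • b i := by
  simp [sgn]

theorem sgn_of_mem {b : Module.Basis ι k M} {wt : ι → ℤ} {n : ℤ} {m : M}
    (hm : m ∈ gradeOf b wt n) : sgn b wt m = (n.negOnePow : ℤ) • m := by
  refine Submodule.span_induction ?_ ?_ ?_ ?_ hm
  · rintro _ ⟨i, hi, rfl⟩
    simp only [Set.mem_setOf_eq] at hi
    subst hi
    simp
  · simp
  · intro x y _ _ hx hy
    rw [map_add, hx, hy, smul_add]
  · intro a x _ hx
    rw [map_smul, hx, smul_comm]

theorem sgn_sgn (b : Module.Basis ι k M) (wt : ι → ℤ) (m : M) :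
    sgn b wt (sgn b wt m) = m := by
  have : (sgn b wt) ∘ₗ (sgn b wt) = LinearMap.id := by
    refine b.ext fun i => ?_
    simp only [LinearMap.comp_apply, sgn_basis, map_zsmul, LinearMap.id_apply, smul_smul]
    rw [← Units.val_mul, ← Int.negOnePow_add, Int.negOnePow_even _ (by exact ⟨wt i, rfl⟩)]
    simp
  exact LinearMap.congr_fun this m

end grade

end Pool.Agent.Helper54.NCM
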