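import Mathlib

/-!
# Small dg categories, dg functors, additive invariants, smooth dg algebras

Everything is over a field `k`.  Gradings are cohomological (the differential has degree `+1`).
-/

open CategoryTheory

namespace Pool.Agent.Helper54.NCM

/-! ## dg categories -/

/-- A small `k`-linear dg category.  `Hom X Y n` is the degree `n` part of the complex of
morphisms from `X` to `Y`; `comp h g f` is the composite `g ∘ f` of `g` of degree `m` and `f` of
degree `n`, which has degree `p = m + n`. -/
structure DGCat (k : Type) [Field k] : Type 1 where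
  Obj : Type
  Hom : Obj → Obj → ℤ → Type
  [acg : ∀ X Y n, AddCommGroup (Hom X Y n)]
  [mod : ∀ X Y n, Module k (Hom X Y n)]
  /-- the differential -/
  d : ∀ {X Y : Obj} {n m : ℤ}, n + 1 = m → Hom X Y n →ₗ[k] Hom X Y m
  /-- the identity morphisms -/
  one : ∀ X : Obj, Hom X X 0
  /-- the composition `g ∘ f` -/
  comp : ∀ {X Y Z : Obj} {m n p : ℤ}, m + n = p →
    Hom Y Z m →ₗ[k] Hom X Y n →ₗ[k] Hom X Z p
  d_d : ∀ {X Y : Obj} {n m l : ℤ} (h : n + 1 = m) (h' : m + 1 = l) (f : Hom X Y n),
    d h' (d h f) = 0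
  one_comp : ∀ {X Y : Obj} {n : ℤ} (f : Hom X Y n), comp (zero_add n) (one Y) f = f
  comp_one : ∀ {X Y : Obj} {n : ℤ} (f : Hom X Y n), comp (add_zero n) f (one X) = f
  assoc : ∀ {W X Y Z : Obj} {a b c ab bc abc : ℤ} (hab : a + b = ab) (hbc : b + c = bc)
    (h₁ : ab + c = abc) (h₂ : a + bc = abc) (x : Hom Y Z a) (y : Hom X Y b) (z : Hom W X c),
    comp h₁ (comp hab x y) z = comp h₂ x (comp hbc y z)
  /-- the graded Leibniz rule `d (g ∘ f) = dg ∘ f + (-1)^|g| g ∘ df` -/
  leibniz : ∀ {X Y Z : Obj} {m n p m' n' p' : ℤ} (h : m + n = p) (hm : m + 1 = m')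
    (hn : n + 1 = n') (hp : p + 1 = p') (h₁ : m' + n = p') (h₂ : m + n' = p')
    (g : Hom Y Z m) (f : Hom X Y n),
    d hp (comp h g f) = comp h₁ (d hm g) f + (m.negOnePow : ℤ) • comp h₂ g (d hn f)

attribute [instance] DGCat.acg DGCat.mod

variable {k : Type} [Field k]

/-- A `k`-linear dg functor. -/
@[ext]
structure DGFunctor (A B : DGCat k) where
  obj : A.Obj → B.Obj
  map : ∀ {X Y : A.Obj} {n : ℤ}, A.Hom X Y n →ₗ[k] B.Hom (obj X) (obj Y) n
  map_one : ∀ X, map (A.one X) = B.one (obj X)
  map_comp : ∀ {X Y Z : A.Obj} {m n p : ℤ} (h : m + n = p) (g : A.Hom Y Z m) (f : A.Hom X Y n),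
    map (A.comp h g f) = B.comp h (map g) (map f)
  map_d : ∀ {X Y : A.Obj} {n m : ℤ} (h : n + 1 = m) (f : A.Hom X Y n),
    map (A.d h f) = B.d h (map f)

/-- Composition of dg functors. -/
def DGFunctor.comp {A B C : DGCat k} (F : DGFunctor A B) (G : DGFunctor B C) :
    DGFunctor A C where
  obj X := G.obj (F.obj X)
  map := G.map ∘ₗ F.map
  map_one X := by simp [F.map_one, G.map_one]
  map_comp h g f := by simp [F.map_comp, G.map_comp]
  map_d h f := by simp [F.map_d, G.map_d]

/-- The identity dg functor. -/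
def DGFunctor.refl (A : DGCat k) : DGFunctor A A where
  obj X := X
  map := LinearMap.id
  map_one _ := rfl
  map_comp _ _ _ := rfl
  map_d _ _ := rfl

/-- The category of small `k`-linear dg categories and dg functors. -/
instance : Category (DGCat k) where
  Hom A B := DGFunctor A B
  id A := DGFunctor.refl A
  comp F G := F.comp G

/-- The dg category with one object whose complex of endomorphisms is `k` in degree zero. -/
def unit (k : Type) [Field k] : DGCat k where
  Obj := Unit
  Hom _ _ n := ({ carrier := {c : k | n ≠ 0 → c = 0}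
                  add_mem' := fun ha hb h => by
                    show _ = _; rw [ha h, hb h, add_zero]
                  zero_mem' := fun _ => rfl
                  smul_mem' := fun c x hx h => by
                    show _ = _; rw [hx h, smul_zero] } : Submodule k k)
  d _ := 0
  one _ := ⟨1, fun h => absurd rfl h⟩
  comp {_ _ _ m n p} h := LinearMap.mk₂ k (fun g f => ⟨g.1 * f.1, by
      intro hp
      by_cases hm : m = 0
      · have hn : n ≠ 0 := by omega
        rw [f.2 hn, mul_zero]
      · rw [g.2 hm, zero_mul]⟩)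
      (fun a b c => Subtype.ext (add_mul a.1 b.1 c.1))
      (fun r a b => Subtype.ext (mul_assoc r a.1 b.1))
      (fun a b c => Subtype.ext (mul_add a.1 b.1 c.1))
      (fun r a b => Subtype.ext (mul_left_comm a.1 r b.1))
  d_d _ _ _ := rfl
  one_comp f := Subtype.ext (one_mul f.1)
  comp_one f := Subtype.ext (mul_one f.1)
  assoc _ _ _ _ x y z := Subtype.ext (mul_assoc x.1 y.1 z.1)
  leibniz _ _ _ _ _ _ g f := by simp; rfl

/-- A sufficient condition for a dg functor `F : A → B` to be a Morita equivalence: `F` is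
quasi-fully faithful, and in the homotopy category `H⁰(B)` every object of `B` is a direct summand
of a finite direct sum of objects in the image of `F`. -/
structure IsMoritaEquiv {A B : DGCat k} (F : DGFunctor A B) : Prop where
  /-- `F` is injective on the cohomology of the complexes of morphisms -/
  inj : ∀ {X Y : A.Obj} {n m l : ℤ} (h : n + 1 = m) (h' : m + 1 = l) (f : A.Hom X Y m)
    (g : B.Hom (F.obj X) (F.obj Y) n), A.d h' f = 0 → B.d h g = F.map f →
    ∃ f' : A.Hom X Y n, A.d h f' = f
  /-- `F` is surjective on the cohomology of the complexes of morphisms -/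
  surj : ∀ {X Y : A.Obj} {n m l : ℤ} (h : n + 1 = m) (h' : m + 1 = l)
    (g : B.Hom (F.obj X) (F.obj Y) m), B.d h' g = 0 →
    ∃ (f : A.Hom X Y m) (t : B.Hom (F.obj X) (F.obj Y) n), A.d h' f = 0 ∧ g = F.map f + B.d h t
  /-- every object of `B` is a retract, in `H⁰(B)`, of a finite direct sum of `F X`'s -/
  gen : ∀ Y : B.Obj, ∃ (m : ℕ) (X : Fin m → A.Obj) (i : ∀ j, B.Hom (F.obj (X j)) Y 0)
    (p : ∀ j, B.Hom Y (F.obj (X j)) 0) (t : B.Hom Y Y (-1)),
    (∀ j, B.d (zero_add 1) (i j) = 0) ∧ (∀ j, B.d (zero_add 1) (p j) = 0) ∧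
    B.one Y = ∑ j, B.comp (add_zero 0) (i j) (p j) + B.d (neg_add_cancel 1) t

/-! ## dg algebras, dg bimodules, smoothness -/

/-- A dg algebra over `k` (with an internal grading). -/
structure DGAlg (k : Type) [Field k] : Type 1 where
  carrier : Type
  [ring : Ring carrier]
  [algebra : Algebra k carrier]
  /-- homogeneous elements of degree `n` -/
  deg : ℤ → Submodule k carrier
  internal : DirectSum.IsInternal deg
  one_mem : (1 : carrier) ∈ deg 0
  mul_mem : ∀ {m n : ℤ} {a b : carrier}, a ∈ deg m → b ∈ deg n → a * b ∈ deg (m + n)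
  /-- the differential -/
  d : carrier →ₗ[k] carrier
  d_mem : ∀ {n : ℤ} {a : carrier}, a ∈ deg n → d a ∈ deg (n + 1)
  d_d : ∀ a : carrier, d (d a) = 0
  leibniz : ∀ {n : ℤ} {a : carrier} (b : carrier), a ∈ deg n →
    d (a * b) = d a * b + (n.negOnePow : ℤ) • (a * d b)

attribute [instance] DGAlg.ring DGAlg.algebra

/-- A dg algebra, regarded as a dg category with one object. -/
def DGAlg.toDGCat (A : DGAlg k) : DGCat k where
  Obj := Unit
  Hom _ _ n := A.deg n
  d h := (A.d.restrict (fun a ha => by subst h; exact A.d_mem ha) : A.deg _ →ₗ[k] A.deg _)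
  one _ := ⟨1, A.one_mem⟩
  comp h := LinearMap.mk₂ k (fun g f => ⟨g.1 * f.1, h ▸ A.mul_mem g.2 f.2⟩)
      (fun a b c => Subtype.ext (add_mul a.1 b.1 c.1))
      (fun r a b => Subtype.ext (smul_mul_assoc r a.1 b.1))
      (fun a b c => Subtype.ext (mul_add a.1 b.1 c.1))
      (fun r a b => Subtype.ext (mul_smul_comm r a.1 b.1))
  d_d _ _ f := Subtype.ext (A.d_d f.1)
  one_comp f := Subtype.ext (one_mul f.1)
  comp_one f := Subtype.ext (mul_one f.1)
  assoc _ _ _ _ x y z := Subtype.ext (mul_assoc x.1 y.1 z.1)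
  leibniz _ _ _ _ _ _ g f := Subtype.ext (by
    simpa using A.leibniz f.1 g.2)

/-- A dg bimodule over a dg algebra `A`, with left action `l a m = a • m` and right action
`r a m = m • a`. -/
structure DGBimod (A : DGAlg k) : Type 1 where
  carrier : Type
  [acg : AddCommGroup carrier]
  [mod : Module k carrier]
  /-- homogeneous elements of degree `n` -/
  deg : ℤ → Submodule k carrier
  internal : DirectSum.IsInternal deg
  /-- left multiplication -/
  l : A.carrier →ₗ[k] carrier →ₗ[k] carrier
  /-- right multiplication -/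
  r : A.carrier →ₗ[k] carrier →ₗ[k] carrier
  l_one : ∀ m, l 1 m = m
  l_mul : ∀ a b m, l (a * b) m = l a (l b m)
  r_one : ∀ m, r 1 m = m
  r_mul : ∀ a b m, r (a * b) m = r b (r a m)
  l_r : ∀ a b m, l a (r b m) = r b (l a m)
  l_mem : ∀ {i j : ℤ} {a m}, a ∈ A.deg i → m ∈ deg j → l a m ∈ deg (i + j)
  r_mem : ∀ {i j : ℤ} {a m}, a ∈ A.deg i → m ∈ deg j → r a m ∈ deg (j + i)
  /-- the differential -/
  d : carrier →ₗ[k] carrier
  d_mem : ∀ {n : ℤ} {m}, m ∈ deg n → d m ∈ deg (n + 1)
  d_d : ∀ m, d (d m) = 0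
  leibniz_l : ∀ {i : ℤ} {a} (m), a ∈ A.deg i → d (l a m) = l (A.d a) m + (i.negOnePow : ℤ) • l a (d m)
  leibniz_r : ∀ {j : ℤ} {m} (a), m ∈ deg j → d (r a m) = r a (d m) + (j.negOnePow : ℤ) • r (A.d a) m

attribute [instance] DGBimod.acg DGBimod.mod

/-- A morphism of dg bimodules: `k`-linear, bilinear over `A`, of degree zero, commuting with the
differentials. -/
structure DGBimod.Mor {A : DGAlg k} (M N : DGBimod A) where
  toFun : M.carrier →ₗ[k] N.carrier
  map_l : ∀ a m, toFun (M.l a m) = N.l a (toFun m)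
  map_r : ∀ a m, toFun (M.r a m) = N.r a (toFun m)
  map_deg : ∀ {n : ℤ} {m}, m ∈ M.deg n → toFun m ∈ N.deg n
  map_d : ∀ m, toFun (M.d m) = N.d (toFun m)

/-- A dg algebra as a dg bimodule over itself (the diagonal bimodule). -/
def DGAlg.diagonal (A : DGAlg k) : DGBimod A where
  carrier := A.carrier
  deg := A.deg
  internal := A.internal
  l := LinearMap.mul k A.carrier
  r := (LinearMap.mul k A.carrier).flip
  l_one := one_mul
  l_mul := mul_assoc
  r_one := mul_one
  r_mul a b m := (mul_assoc m a b).symm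
  l_r a b m := (mul_assoc a m b).symm
  l_mem := A.mul_mem
  r_mem ha hm := A.mul_mem hm ha
  d := A.d
  d_mem := A.d_mem
  d_d := A.d_d
  leibniz_l m ha := A.leibniz m ha
  leibniz_r a hm := A.leibniz a hm

open scoped TensorProduct in
/-- `M` is a finite free dg bimodule: there are finitely many homogeneous cycles `g i` such that
every element of `M` is in a unique way `∑ᵢ aᵢ • g i • bᵢ` with `∑ aᵢ ⊗ bᵢ ∈ A ⊗ A`. Thus `M` is a
finite direct sum of shifts of `A ⊗ A`. -/
def DGBimod.IsFiniteFree {A : DGAlg k} (M : DGBimod A) : Prop :=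
  ∃ (n : ℕ) (g : Fin n → M.carrier), (∀ i, ∃ j, g i ∈ M.deg j) ∧ (∀ i, M.d (g i) = 0) ∧
    Function.Bijective (fun x : Fin n → A.carrier ⊗[k] A.carrier =>
      ∑ i, TensorProduct.lift (LinearMap.mk₂ k (fun a b => M.l a (M.r b (g i)))
        (fun a a' b => by simp) (fun c a b => by simp) (fun a b b' => by simp)
        (fun c a b => by simp)) (x i))

/-- Perfect dg bimodules over `A`: the smallest class of dg bimodules which contains the finite
free ones and is closed under quasi-isomorphisms (in both directions), direct summands, and the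
two-out-of-three property for short exact sequences.  In other words, the objects of the thick
subcategory of the derived category of `A`-bimodules generated by `A ⊗ A`, that is, the perfect
(= compact) objects of that derived category. -/
inductive DGBimod.IsPerfect {A : DGAlg k} : DGBimod A → Prop
  | free (M : DGBimod A) : M.IsFiniteFree → IsPerfect M
  | ext_mid (M N L : DGBimod A) (f : DGBimod.Mor M N) (g : DGBimod.Mor N L) :
      Function.Injective f.toFun → Function.Surjective g.toFun →
      LinearMap.ker g.toFun = LinearMap.range f.toFun → IsPerfect M → IsPerfect L → IsPerfect N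
  | ext_right (M N L : DGBimod A) (f : DGBimod.Mor M N) (g : DGBimod.Mor N L) :
      Function.Injective f.toFun → Function.Surjective g.toFun →
      LinearMap.ker g.toFun = LinearMap.range f.toFun → IsPerfect M → IsPerfect N → IsPerfect L
  | ext_left (M N L : DGBimod A) (f : DGBimod.Mor M N) (g : DGBimod.Mor N L) :
      Function.Injective f.toFun → Function.Surjective g.toFun →
      LinearMap.ker g.toFun = LinearMap.range f.toFun → IsPerfect N → IsPerfect L → IsPerfect M
  | retract (M N : DGBimod A) (f : DGBimod.Mor M N) (g : DGBimod.Mor N M) :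
      (∀ m, g.toFun (f.toFun m) = m) → IsPerfect N → IsPerfect M
  | qiso_left (M N : DGBimod A) (f : DGBimod.Mor M N) :
      (∀ m, M.d m = 0 → f.toFun m ∈ LinearMap.range N.d → m ∈ LinearMap.range M.d) →
      (∀ n, N.d n = 0 → ∃ m, M.d m = 0 ∧ n - f.toFun m ∈ LinearMap.range N.d) →
      IsPerfect N → IsPerfect M
  | qiso_right (M N : DGBimod A) (f : DGBimod.Mor M N) :
      (∀ m, M.d m = 0 → f.toFun m ∈ LinearMap.range N.d → m ∈ LinearMap.range M.d) →
      (∀ n, N.d n = 0 → ∃ m, M.d m = 0 ∧ n - f.toFun m ∈ LinearMap.range N.d) →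
      IsPerfect M → IsPerfect N

/-- A dg algebra is smooth (Kontsevich) if the diagonal bimodule is perfect. -/
def DGAlg.IsSmooth (A : DGAlg k) : Prop := A.diagonal.IsPerfect

end Pool.Agent.Helper54.NCM
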