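import Pool.Agent.Helper54.NCM.Twisted

/-!
# Finite cell dg algebras: free graded algebras on generators `X` (degree 0) and `Y` (degree -1)
-/

namespace Pool.Agent.Helper54.NCM

open scoped TensorProduct

variable {k : Type} [Field k] {X Y : Type}

/-- the free algebra on `X ⊕ Y` -/
abbrev FA (k : Type) [Field k] (X Y : Type) : Type := MonoidAlgebra k (FreeMonoid (X ⊕ Y))

/-- monomials -/
noncomputable def mon (w : List (X ⊕ Y)) : FA k X Y := MonoidAlgebra.single (FreeMonoid.ofList w) 1

/-- weight of a letter -/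
def wtG : X ⊕ Y → ℤ := Sum.elim (fun _ => 0) (fun _ => -1)

/-- weight of a word -/
def wtW (w : List (X ⊕ Y)) : ℤ := (w.map wtG).sum

/-- monomial basis -/
noncomputable def mb : Module.Basis (List (X ⊕ Y)) k (FA k X Y) :=
  (MonoidAlgebra.basis (FreeMonoid (X ⊕ Y)) k)

theorem mb_apply (w : List (X ⊕ Y)) : (mb w : FA k X Y) = mon w := by
  simp [mb, mon]; rfl

theorem mon_mul (u v : List (X ⊕ Y)) : (mon u * mon v : FA k X Y) = mon (u ++ v) := by
  simp [mon, MonoidAlgebra.single_mul_single]

theorem mon_nil : (mon [] : FA k X Y) = 1 := rfl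

theorem mon_mem (w : List (X ⊕ Y)) : (mon w : FA k X Y) ∈ gradeOf mb wtW (wtW w) := by
  have := basis_mem_gradeOf (mb : Module.Basis _ k (FA k X Y)) wtW w
  rwa [mb_apply] at this

/-- sign involution -/
noncomputable def fα : FA k X Y →ₗ[k] FA k X Y := sgn mb wtW

theorem fα_mon (w : List (X ⊕ Y)) : (fα (mon w) : FA k X Y) = ((wtW w).negOnePow : ℤ) • mon w := by
  have := sgn_basis (mb : Module.Basis _ k (FA k X Y)) wtW w
  rwa [mb_apply] at this

theorem fmul_mem {m n : ℤ} {x y : FA k X Y} (hx : x ∈ gradeOf mb wtW m)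
    (hy : y ∈ gradeOf mb wtW n) : x * y ∈ gradeOf mb wtW (m + n) := by
  refine map₂_mem_gradeOf (LinearMap.mul k (FA k X Y)) ?_ hx hy
  intro i j
  rw [mb_apply, mb_apply, LinearMap.mul_apply', mon_mul]
  have := mon_mem (k := k) (i ++ j)
  simpa [wtW] using this

theorem fα_mul (x y : FA k X Y) : fα (x * y) = fα x * fα y := by
  have : (LinearMap.mul k (FA k X Y)).compr₂ fα = (LinearMap.mul k (FA k X Y)).compl₁₂ fα fα := by
    refine mb.ext fun i => mb.ext fun j => ?_
    simp only [LinearMap.compr₂_apply, LinearMap.mul_apply', LinearMap.compl₁₂_apply, mb_apply,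
      mon_mul, fα_mon, smul_mul_smul_comm]
    congr 1
    simp [wtW, Int.negOnePow_add]
  exact LinearMap.congr_fun (LinearMap.congr_fun this x) y

variable (ρ : Y → FreeAlgebra k X)

/-- the embedding of the free algebra on `X` -/
noncomputable def emb : FreeAlgebra k X →ₐ[k] FA k X Y :=
  FreeAlgebra.lift k fun x => mon [Sum.inl x]

/-- `R g = d g` for a generator `g` -/
noncomputable def R : X ⊕ Y → FA k X Y := Sum.elim (fun _ => 0) (fun y => emb (ρ y))

/-- the differential on words -/
noncomputable def dW : List (X ⊕ Y) → FA k X Y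
  | [] => 0
  | g :: w => R ρ g * mon w + ((wtG g).negOnePow : ℤ) • (mon [g] * dW w)

/-- the differential -/
noncomputable def fd : FA k X Y →ₗ[k] FA k X Y := mb.constr k (dW ρ)

theorem fd_mon (w : List (X ⊕ Y)) : fd ρ (mon w) = dW ρ w := by
  rw [← mb_apply, fd, Module.Basis.constr_basis]

theorem dW_append (u v : List (X ⊕ Y)) :
    dW ρ (u ++ v) = dW ρ u * mon v + fα (mon u) * dW ρ v := by
  induction u with
  | nil =>
    rw [fα_mon]
    simp [dW, mon_nil, wtW]
  | cons g u ih =>
    simp only [List.cons_append, dW, ih, fα_mon]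
    simp only [add_mul, mul_add, smul_add, mul_assoc, mon_mul, smul_mul_assoc, ← add_assoc,
      List.singleton_append]
    congr 1
    rw [mul_smul_comm, smul_smul, ← mul_assoc, mon_mul]
    simp [wtW, Int.negOnePow_add]

theorem fd_mul (x y : FA k X Y) : fd ρ (x * y) = fd ρ x * y + fα x * fd ρ y := by
  have : (LinearMap.mul k (FA k X Y)).compr₂ (fd ρ) =
      (LinearMap.mul k (FA k X Y)).compl₁₂ (fd ρ) LinearMap.id +
      (LinearMap.mul k (FA k X Y)).compl₁₂ fα (fd ρ) := by
    refine mb.ext fun i => mb.ext fun j => ?_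
    simp only [LinearMap.compr₂_apply, LinearMap.mul_apply', LinearMap.compl₁₂_apply, mb_apply,
      mon_mul, fd_mon, LinearMap.add_apply, LinearMap.id_apply, dW_append]
  exact LinearMap.congr_fun (LinearMap.congr_fun this x) y

theorem emb_mem (a : FreeAlgebra k X) : (emb a : FA k X Y) ∈ gradeOf mb wtW 0 := by
  induction a using FreeAlgebra.induction with
  | grade0 r =>
    rw [AlgHom.commutes, Algebra.algebraMap_eq_smul_one]
    exact Submodule.smul_mem _ _ (by simpa [wtW, mon_nil] using mon_mem (k := k) (X := X) (Y := Y) [])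
  | grade1 x => simpa [emb, wtW, wtG] using mon_mem (k := k) (X := X) (Y := Y) [Sum.inl x]
  | mul a b ha hb => rw [map_mul]; simpa using fmul_mem ha hb
  | add a b ha hb => rw [map_add]; exact Submodule.add_mem _ ha hb

theorem fd_one : fd ρ (1 : FA k X Y) = 0 := by
  rw [← mon_nil, fd_mon]; rfl

theorem fd_emb (a : FreeAlgebra k X) : fd ρ (emb a : FA k X Y) = 0 := by
  induction a using FreeAlgebra.induction with
  | grade0 r =>
    rw [AlgHom.commutes, Algebra.algebraMap_eq_smul_one, map_smul, fd_one, smul_zero]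
  | grade1 x => simp [emb, fd_mon, dW, R]
  | mul a b ha hb => rw [map_mul, fd_mul, ha, hb]; simp
  | add a b ha hb => rw [map_add, map_add, ha, hb, add_zero]

theorem R_mem (g : X ⊕ Y) : R ρ g ∈ gradeOf mb wtW (wtG g + 1) := by
  rcases g with x | y
  · exact Submodule.zero_mem _
  · simpa [R, wtG] using emb_mem (ρ y)

theorem fd_R (g : X ⊕ Y) : fd ρ (R ρ g) = 0 := by
  rcases g with x | y
  · simp [R]
  · simpa [R] using fd_emb ρ (ρ y)

theorem dW_mem (w : List (X ⊕ Y)) : dW ρ w ∈ gradeOf mb wtW (wtW w + 1) := by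
  induction w with
  | nil => exact Submodule.zero_mem _
  | cons g w ih =>
    refine Submodule.add_mem _ ?_ (zsmul_mem ?_ _)
    · have := fmul_mem (R_mem ρ g) (mon_mem (k := k) w)
      convert this using 2
      simp only [wtW, List.map_cons, List.sum_cons]; ring
    · have := fmul_mem (mon_mem (k := k) [g]) ih
      convert this using 2
      simp only [wtW, List.map_cons, List.sum_cons, List.map_nil, List.sum_nil]; ring

theorem fd_fd (x : FA k X Y) : fd ρ (fd ρ x) = 0 := by
  have : fd ρ ∘ₗ fd ρ = 0 := by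
    refine mb.ext fun w => ?_
    simp only [LinearMap.comp_apply, mb_apply, fd_mon, LinearMap.zero_apply]
    induction w with
    | nil => simp [dW]
    | cons g w ih =>
      rw [dW, map_add, map_zsmul, fd_mul, fd_mul, fd_R, ih, fd_mon, fd_mon]
      have h1 : fα (R ρ g) = -(((wtG g).negOnePow : ℤ) • R ρ g) := by
        rw [fα, sgn_of_mem (R_mem ρ g), Int.negOnePow_succ]; simp
      have h2 : dW ρ [g] = R ρ g := by simp [dW, mon_nil]
      rw [h1, h2]
      simp only [smul_mul_assoc, mul_zero, zero_mul, neg_mul, add_zero]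
      abel
  exact LinearMap.congr_fun this x

/-- The finite cell dg algebra `A = k⟨X, Y⟩`, `deg x = 0`, `deg y = -1`, `d x = 0`, `d y = ρ y`. -/
noncomputable def cellB : BDG k where
  A := FA k X Y
  ι := List (X ⊕ Y)
  b := mb
  wt := wtW
  one_mem := by simpa [wtW, mon_nil] using mon_mem (k := k) (X := X) (Y := Y) []
  mul_mem' i j := by
    rw [mb_apply, mb_apply]
    exact fmul_mem (mon_mem i) (mon_mem j)
  d := fd ρ
  d_mem' i := by rw [mb_apply, fd_mon]; exact dW_mem ρ i
  d_d := fd_fd ρ
  leib := fd_mul ρ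

end Pool.Agent.Helper54.NCM
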