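import Mathlib

/-!
# Tensor powers, the action of the symmetric group, Young symmetrizers, Schur-finiteness
-/

open CategoryTheory MonoidalCategory

namespace Pool.Agent.Helper54.NCM

section
universe v u
variable {C : Type u} [Category.{v} C] [MonoidalCategory C] [SymmetricCategory C]

/-- The tensor power `X ⊗ (X ⊗ (⋯ ⊗ 𝟙))` with `n` factors `X`. -/
def tpow (X : C) : ℕ → C
  | 0 => 𝟙_ C
  | n + 1 => X ⊗ tpow X n

/-- The morphism `x₀ ⊗ x₁ ⊗ ⋯ ↦ x₁ ⊗ x₀ ⊗ ⋯` exchanging the first two factors. -/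
def swapFirst (X Y : C) : X ⊗ X ⊗ Y ⟶ X ⊗ X ⊗ Y :=
  (α_ X X Y).inv ≫ (β_ X X).hom ▷ Y ≫ (α_ X X Y).hom

/-- The morphism `x₀ ⊗ ⋯ ⊗ xₙ ↦ xᵢ ⊗ x₀ ⊗ ⋯ x̂ᵢ ⋯ ⊗ xₙ` which moves the factor number `i` to the
front. -/
def toFront (X : C) : (n : ℕ) → Fin (n + 1) → (tpow X (n + 1) ⟶ tpow X (n + 1))
  | 0, _ => 𝟙 _
  | n + 1, i => Fin.cases (𝟙 _) (fun j => X ◁ toFront X n j ≫ swapFirst X (tpow X n)) i

/-- For a permutation `σ` of `{0, …, n}` with `σ i = 0`, the induced bijection from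
`{0, …, n} \ {i}` to `{1, …, n}`, both identified with `{0, …, n-1}` in the increasing way. -/
def restPerm {n : ℕ} (σ : Equiv.Perm (Fin (n + 1))) : Equiv.Perm (Fin n) :=
  Equiv.removeNone
    ((finSuccEquiv' (σ.symm 0)).symm.trans (σ.trans (finSuccEquiv' 0)))

/-- The action of `σ ∈ Σₙ` on `X^{⊗ n}`: the factor in position `i` is moved to position `σ i`. -/
def permAct (X : C) : (n : ℕ) → Equiv.Perm (Fin n) → (tpow X n ⟶ tpow X n)
  | 0, _ => 𝟙 _
  | n + 1, σ => toFront X n (σ.symm 0) ≫ X ◁ permAct X n (restPerm σ)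

variable [Preadditive C] [Linear ℚ C]

/-- The action on `X^{⊗ n}` of an element of the group algebra `ℚ[Σₙ]`. -/
noncomputable def groupAlgAct (X : C) {n : ℕ} (x : MonoidAlgebra ℚ (Equiv.Perm (Fin n))) :
    tpow X n ⟶ tpow X n :=
  ∑ σ : Equiv.Perm (Fin n), x.coeff σ • permAct X n σ

end

/-- The Young symmetrizer `∑ sign(q) p q` of a numbering `T` of the boxes of a Young diagram; here
`p` runs over the permutations preserving the rows and `q` over those preserving the columns. -/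
noncomputable def youngSymmetrizer {n : ℕ} (μ : YoungDiagram) (T : Fin n ≃ μ.cells) :
    MonoidAlgebra ℚ (Equiv.Perm (Fin n)) :=
  ∑ p : {p : Equiv.Perm (Fin n) // ∀ i, (T (p i)).1.1 = (T i).1.1},
    ∑ q : {q : Equiv.Perm (Fin n) // ∀ i, (T (q i)).1.2 = (T i).1.2},
      MonoidAlgebra.single (p.1 * q.1) ((Equiv.Perm.sign q.1 : ℤ) : ℚ)

/-- `X` is Schur-finite: `S_μ(X) = 0` for some partition `μ` of some `n ≥ 1`. Here `S_μ(X)` is the
image of the idempotent of `End(X^{⊗ n})` given by a nonzero multiple of a Young symmetrizer of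
shape `μ`, so that `S_μ(X) = 0` means that the Young symmetrizer acts as zero on `X^{⊗ n}`. -/
def IsSchurFinite {C : Type*} [Category* C] [MonoidalCategory C] [SymmetricCategory C]
    [Preadditive C] [Linear ℚ C] (X : C) : Prop :=
  ∃ (n : ℕ) (μ : YoungDiagram) (T : Fin n ≃ μ.cells), 1 ≤ n ∧
    groupAlgAct X (youngSymmetrizer μ T) = 0

end Pool.Agent.Helper54.NCM
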