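import Pool.Agent.Helper54.NCM.Free

/-!
# Finite cell dg algebras are smooth
-/

namespace Pool.Agent.Helper54.NCM

open scoped TensorProduct

variable {k : Type} [Field k]

section free

variable (B : BDG k) {I : Type} [Fintype I] [DecidableEq I] (w : I → ℤ)

/-- The finite free dg bimodule. -/
noncomputable def twFree : DGBimod B.toDGAlg :=
  tw B w (fun _ : I => 0) (fun _ => Submodule.zero_mem _) (fun _ => map_zero _)

theorem twFree_isFiniteFree : (twFree B w).IsFiniteFree := by
  let e := Fintype.equivFin I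
  refine ⟨Fintype.card I, fun i => el B (e.symm i) (1 ⊗ₜ 1), fun i => ⟨w (e.symm i),
    el_one_mem B w (e.symm i)⟩, fun i => ?_, ?_⟩
  · change omD B w (fun _ : I => 0) _ = 0
    have hd : B.d 1 = 0 := by
      have := B.leib' 1 1
      rw [mul_one, B.α_one, mul_one, one_mul] at this
      simpa using this
    rw [omD_el]
    simp [hd]
  · have h : ∀ (i : Fin (Fintype.card I)) (t : B.A ⊗[k] B.A),
        (TensorProduct.lift (LinearMap.mk₂ k (fun a b => lact B a (ract B b
          (el B (e.symm i) (1 ⊗ₜ 1)))) (fun a a' b => by simp) (fun c a b => by simp)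
          (fun a b b' => by simp) (fun c a b => by simp))) t = el B (e.symm i) t := by
      intro i t
      have : (TensorProduct.lift (LinearMap.mk₂ k (fun a b => lact B a (ract B b
          (el B (e.symm i) (1 ⊗ₜ 1)))) (fun a a' b => by simp) (fun c a b => by simp)
          (fun a b b' => by simp) (fun c a b => by simp))) = el B (e.symm i) := by
        refine TensorProduct.ext' fun u v => ?_
        simp
      exact LinearMap.congr_fun this t
    have h2 : ∀ x : Fin (Fintype.card I) → B.A ⊗[k] B.A,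
        ∑ i, el B (e.symm i) (x i) = fun j => x (e j) := by
      intro x
      funext j
      rw [Finset.sum_apply, Finset.sum_eq_single (e j)]
      · simp [el]
      · intro i _ hi
        have : j ≠ e.symm i := by
          rintro rfl
          exact hi (by simp)
        simp [el, Pi.single_eq_of_ne this]
      · simp
    have h3 : (fun x : Fin (Fintype.card I) → B.A ⊗[k] B.A =>
        (∑ i, el B (e.symm i) (x i) : Om B I)) = fun x j => x (e j) := funext h2
    have h4 : Function.Bijective (fun x : Fin (Fintype.card I) → B.A ⊗[k] B.A =>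
        (∑ i, el B (e.symm i) (x i) : Om B I)) := by
      rw [h3]
      exact (Equiv.arrowCongr e.symm (Equiv.refl (B.A ⊗[k] B.A))).bijective
    exact Eq.subst (motive := Function.Bijective)
      (funext fun x => (Finset.sum_congr rfl fun i _ => h i (x i)).symm) h4

end free

section cell

variable {X Y : Type} [Fintype X] [Fintype Y] [DecidableEq X] [DecidableEq Y]
  (ρ : Y → FreeAlgebra k X)

/-- monomials in the cell algebra -/
noncomputable abbrev m (w : List (X ⊕ Y)) : (cellB ρ).A := (mon w : FA k X Y)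

theorem cell_ext {N : Type} [AddCommGroup N] [Module k N] {f g : (cellB ρ).A →ₗ[k] N}
    (h : ∀ w, f (m ρ w) = g (m ρ w)) : f = g := by
  refine (cellB ρ).b.ext fun w => ?_
  have : (cellB ρ).b w = m ρ w := mb_apply w
  rw [this]
  exact h w

theorem m_mul (u v : List (X ⊕ Y)) : m ρ u * m ρ v = m ρ (u ++ v) := mon_mul u v

theorem m_nil : m ρ [] = 1 := rfl

theorem m_mem (w : List (X ⊕ Y)) : m ρ w ∈ gradeOf (cellB ρ).b (cellB ρ).wt (wtW w) := mon_mem w

/-- `d g` -/
noncomputable abbrev Rc (g : X ⊕ Y) : (cellB ρ).A := R ρ g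

theorem d_cons (g : X ⊕ Y) (w : List (X ⊕ Y)) :
    (cellB ρ).d (m ρ (g :: w)) = Rc ρ g * m ρ w + ((wtG g).negOnePow : ℤ) •
      (m ρ [g] * (cellB ρ).d (m ρ w)) := by
  change fd ρ (mon (g :: w)) = R ρ g * mon w + ((wtG g).negOnePow : ℤ) • (mon [g] * fd ρ (mon w))
  rw [fd_mon, fd_mon]; rfl

theorem d_nil : (cellB ρ).d (m ρ []) = 0 := fd_one ρ

theorem d_gen (g : X ⊕ Y) : (cellB ρ).d (m ρ [g]) = Rc ρ g := by
  rw [d_cons, d_nil, m_nil]; simp

theorem α_gen (g : X ⊕ Y) : (cellB ρ).α (m ρ [g]) = ((wtG g).negOnePow : ℤ) • m ρ [g] := by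
  rw [(cellB ρ).α_mem (m_mem ρ [g])]; simp [wtW]

/-- the universal derivation on words -/
noncomputable def DW : List (X ⊕ Y) → Om (cellB ρ) (X ⊕ Y)
  | [] => 0
  | g :: w => ract (cellB ρ) (m ρ w) (el (cellB ρ) g (1 ⊗ₜ 1)) +
      lact (cellB ρ) (m ρ [g]) (DW w)

/-- the universal derivation -/
noncomputable def De : (cellB ρ).A →ₗ[k] Om (cellB ρ) (X ⊕ Y) := (cellB ρ).b.constr k (DW ρ)

theorem De_m (w : List (X ⊕ Y)) : De ρ (m ρ w) = DW ρ w := by
  have : (cellB ρ).b w = m ρ w := mb_apply w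
  rw [← this, De, Module.Basis.constr_basis]

theorem DW_append (u v : List (X ⊕ Y)) :
    DW ρ (u ++ v) = ract (cellB ρ) (m ρ v) (DW ρ u) + lact (cellB ρ) (m ρ u) (DW ρ v) := by
  induction u with
  | nil => simp [DW, m_nil, lact_one]
  | cons g u ih =>
    simp only [List.cons_append, DW, ih, map_add]
    rw [← m_mul, ract_mul, lact_ract, ← List.singleton_append (x := g) (l := u), ← m_mul, lact_mul]
    abel

theorem De_mul (x y : (cellB ρ).A) :
    De ρ (x * y) = ract (cellB ρ) y (De ρ x) + lact (cellB ρ) x (De ρ y) := by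
  have : (LinearMap.mul k (cellB ρ).A).compr₂ (De ρ) =
      ((ract (cellB ρ)).flip.comp (De ρ)) + (lact (cellB ρ)).compl₂ (De ρ) := by
    refine cell_ext ρ fun u => cell_ext ρ fun v => ?_
    simp only [LinearMap.compr₂_apply, LinearMap.mul_apply', m_mul, De_m, LinearMap.add_apply,
      LinearMap.comp_apply, LinearMap.flip_apply, LinearMap.compl₂_apply, DW_append]
  exact LinearMap.congr_fun (LinearMap.congr_fun this x) y

theorem De_one : De ρ 1 = 0 := by rw [← m_nil, De_m]; rfl

theorem De_gen (g : X ⊕ Y) : De ρ (m ρ [g]) = el (cellB ρ) g (1 ⊗ₜ 1) := by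
  rw [De_m]; simp [DW, m_nil, ract_one]

theorem De_mem {n : ℤ} {x : (cellB ρ).A} (hx : x ∈ gradeOf (cellB ρ).b (cellB ρ).wt n) :
    De ρ x ∈ gradeOf (omBasis (cellB ρ)) (omWt (cellB ρ) wtG) n := by
  have := map_mem_gradeOf (S := gradeOf (omBasis (cellB ρ)) (omWt (cellB ρ) wtG)) (De ρ) 0
    (fun w => ?_) hx
  · simpa using this
  · have : (cellB ρ).b w = m ρ w := mb_apply w
    rw [this, De_m, add_zero]
    change DW ρ w ∈ gradeOf _ _ (wtW w)
    induction w with
    | nil => exact Submodule.zero_mem _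
    | cons g w ih =>
      refine Submodule.add_mem _ ?_ ?_
      · have := ract_mem (cellB ρ) wtG (m_mem ρ w) (el_one_mem (cellB ρ) wtG g)
        simpa [wtW] using this
      · have := lact_mem (cellB ρ) wtG (m_mem ρ [g]) (ih (mb_apply w))
        simpa [wtW] using this

/-- twisting elements -/
noncomputable def τc (g : X ⊕ Y) : Om (cellB ρ) (X ⊕ Y) := De ρ (Rc ρ g)

theorem τc_mem (g : X ⊕ Y) :
    τc ρ g ∈ gradeOf (omBasis (cellB ρ)) (omWt (cellB ρ) wtG) (wtG g + 1) :=
  De_mem ρ (R_mem ρ g)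

theorem omD_De (x : (cellB ρ).A) :
    omD (cellB ρ) wtG (τc ρ) (De ρ x) = De ρ ((cellB ρ).d x) := by
  have : omD (cellB ρ) wtG (τc ρ) ∘ₗ De ρ = De ρ ∘ₗ (cellB ρ).d := by
    refine cell_ext ρ fun w => ?_
    simp only [LinearMap.comp_apply]
    induction w with
    | nil => rw [d_nil, m_nil, De_one]; simp
    | cons g w ih =>
      rw [d_cons, map_add, map_zsmul, De_mul, De_mul, De_m, DW, map_add, omD_ract, omD_lact,
        ← De_m, ih, De_gen, omD_el, omα_el, α_gen, d_gen]
      have hd : (cellB ρ).d 1 = 0 := d_nil ρ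
      simp only [hd, (cellB ρ).α_one, TensorProduct.zero_tmul, TensorProduct.tmul_zero, map_zero,
        smul_zero, add_zero, zero_add, lact_one, ract_one, map_zsmul, LinearMap.smul_apply,
        smul_add, τc]
      abel
  exact LinearMap.congr_fun this x

theorem omD_τc (g : X ⊕ Y) : omD (cellB ρ) wtG (τc ρ) (τc ρ g) = 0 := by
  rw [τc, omD_De]
  have : (cellB ρ).d (Rc ρ g) = 0 := fd_R ρ g
  rw [this, map_zero]

/-- the bimodule of noncommutative differential forms -/
noncomputable def OmC : DGBimod (cellB ρ).toDGAlg :=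
  tw (cellB ρ) wtG (τc ρ) (τc_mem ρ) (omD_τc ρ)

/-- a generator of degree zero -/
def zw : Unit → ℤ := fun _ => 0

/-- the bimodule `A ⊗ A` -/
noncomputable def PC : DGBimod (cellB ρ).toDGAlg := twFree (cellB ρ) zw

/-- the multiplication `A ⊗ A → A` -/
noncomputable def muL : Om (cellB ρ) Unit →ₗ[k] (cellB ρ).A :=
  LinearMap.mul' k (cellB ρ).A ∘ₗ LinearMap.proj ()

theorem muL_el (u v : (cellB ρ).A) : muL ρ (el (cellB ρ) () (u ⊗ₜ v)) = u * v := by
  simp [muL, el]

/-- the map `u [g] v ↦ u g ⊗ v - u ⊗ g v` -/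
noncomputable def deL : Om (cellB ρ) (X ⊕ Y) →ₗ[k] Om (cellB ρ) Unit :=
  LinearMap.lsum k (fun _ => (cellB ρ).A ⊗[k] (cellB ρ).A) k fun g =>
    el (cellB ρ) () ∘ₗ (TensorProduct.map (LinearMap.mulRight k (m ρ [g])) LinearMap.id -
      TensorProduct.map LinearMap.id (LinearMap.mulLeft k (m ρ [g])))

theorem deL_el (g : X ⊕ Y) (u v : (cellB ρ).A) :
    deL ρ (el (cellB ρ) g (u ⊗ₜ v)) =
      el (cellB ρ) () ((u * m ρ [g]) ⊗ₜ v) - el (cellB ρ) () (u ⊗ₜ (m ρ [g] * v)) := by
  simp only [deL, el]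
  rw [LinearMap.coe_single, LinearMap.lsum_piSingle]
  simp only [LinearMap.comp_apply, LinearMap.sub_apply, TensorProduct.map_tmul,
    LinearMap.mulRight_apply, LinearMap.id_apply, LinearMap.mulLeft_apply]
  exact (LinearMap.single k (fun _ : Unit => (cellB ρ).A ⊗[k] (cellB ρ).A) ()).map_sub _ _

theorem deL_lact (a : (cellB ρ).A) (x : Om (cellB ρ) (X ⊕ Y)) :
    deL ρ (lact (cellB ρ) a x) = lact (cellB ρ) a (deL ρ x) := by
  have : deL ρ ∘ₗ lact (cellB ρ) a = lact (cellB ρ) a ∘ₗ deL ρ := by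
    refine om_ext _ fun g u v => ?_
    simp only [LinearMap.comp_apply, lact_el, deL_el, map_sub, mul_assoc]
  exact LinearMap.congr_fun this x

theorem deL_ract (a : (cellB ρ).A) (x : Om (cellB ρ) (X ⊕ Y)) :
    deL ρ (ract (cellB ρ) a x) = ract (cellB ρ) a (deL ρ x) := by
  have : deL ρ ∘ₗ ract (cellB ρ) a = ract (cellB ρ) a ∘ₗ deL ρ := by
    refine om_ext _ fun g u v => ?_
    simp only [LinearMap.comp_apply, ract_el, deL_el, map_sub, mul_assoc]
  exact LinearMap.congr_fun this x

theorem deL_De (x : (cellB ρ).A) :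
    deL ρ (De ρ x) = el (cellB ρ) () (x ⊗ₜ 1) - el (cellB ρ) () (1 ⊗ₜ x) := by
  have : deL ρ ∘ₗ De ρ = el (cellB ρ) () ∘ₗ ((TensorProduct.mk k _ _).flip 1 -
      TensorProduct.mk k _ _ 1) := by
    refine cell_ext ρ fun w => ?_
    simp only [LinearMap.comp_apply, LinearMap.sub_apply, LinearMap.flip_apply,
      TensorProduct.mk_apply, map_sub]
    induction w with
    | nil => rw [m_nil, De_one]; simp
    | cons g w ih =>
      rw [De_m, DW, map_add, deL_ract, deL_lact, ← De_m, ih, deL_el]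
      simp only [map_sub, ract_el, lact_el, m_mul, mul_one, one_mul, List.singleton_append]
      abel
  have := LinearMap.congr_fun this x
  simpa using this

/-- the contraction `u ⊗ v ↦ D(u) v` -/
noncomputable def hL : Om (cellB ρ) Unit →ₗ[k] Om (cellB ρ) (X ⊕ Y) :=
  TensorProduct.lift ((ract (cellB ρ)).flip.comp (De ρ)) ∘ₗ LinearMap.proj ()

theorem hL_el (u v : (cellB ρ).A) :
    hL ρ (el (cellB ρ) () (u ⊗ₜ v)) = ract (cellB ρ) v (De ρ u) := by
  simp [hL, el]

theorem hL_deL (x : Om (cellB ρ) (X ⊕ Y)) : hL ρ (deL ρ x) = x := by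
  have : hL ρ ∘ₗ deL ρ = LinearMap.id := by
    refine om_ext _ fun g u v => ?_
    rw [LinearMap.comp_apply, deL_el, map_sub, hL_el, hL_el, De_mul, map_add, ract_mul, De_gen]
    simp
  exact LinearMap.congr_fun this x

theorem deL_hL (x : Om (cellB ρ) Unit) :
    deL ρ (hL ρ x) = x - el (cellB ρ) () (1 ⊗ₜ muL ρ x) := by
  have : deL ρ ∘ₗ hL ρ = LinearMap.id - el (cellB ρ) () ∘ₗ TensorProduct.mk k _ _ 1 ∘ₗ muL ρ := by
    refine om_ext _ fun g u v => ?_
    obtain ⟨⟩ := g
    simp only [LinearMap.comp_apply, LinearMap.sub_apply, LinearMap.id_apply, hL_el, deL_ract,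
      deL_De, muL_el, TensorProduct.mk_apply, map_sub, ract_el, one_mul]
  have := LinearMap.congr_fun this x
  simpa using this

theorem muL_deL (x : Om (cellB ρ) (X ⊕ Y)) : muL ρ (deL ρ x) = 0 := by
  have : muL ρ ∘ₗ deL ρ = 0 := by
    refine om_ext _ fun g u v => ?_
    rw [LinearMap.comp_apply, deL_el, map_sub, muL_el, muL_el, mul_assoc]
    simp
  exact LinearMap.congr_fun this x

theorem deL_omD (x : Om (cellB ρ) (X ⊕ Y)) :
    deL ρ (omD (cellB ρ) wtG (τc ρ) x) =
      omD (cellB ρ) zw (fun _ : Unit => 0) (deL ρ x) := by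
  have : deL ρ ∘ₗ omD (cellB ρ) wtG (τc ρ) = omD (cellB ρ) zw (fun _ : Unit => 0) ∘ₗ deL ρ := by
    refine om_ext _ fun g u v => ?_
    simp only [LinearMap.comp_apply, omD_el, deL_el, map_add, map_zsmul, deL_lact, deL_ract,
      map_sub, τc, deL_De, ract_el, lact_el, (cellB ρ).leib', (cellB ρ).α_mul, d_gen, α_gen,
      map_zero, mul_one, one_mul, add_zero, zw, Int.negOnePow_zero, TensorProduct.add_tmul,
      TensorProduct.tmul_add]
    simp only [Units.val_one, one_smul, mul_smul_comm, smul_mul_assoc, smul_sub]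
    simp only [← Int.cast_smul_eq_zsmul k, ← TensorProduct.smul_tmul', TensorProduct.tmul_smul,
      map_smul]
    abel
  exact LinearMap.congr_fun this x

theorem muL_omD (x : Om (cellB ρ) Unit) :
    muL ρ (omD (cellB ρ) zw (fun _ : Unit => 0) x) = (cellB ρ).d (muL ρ x) := by
  have : muL ρ ∘ₗ omD (cellB ρ) zw (fun _ : Unit => 0) = (cellB ρ).d ∘ₗ muL ρ := by
    refine om_ext _ fun g u v => ?_
    obtain ⟨⟩ := g
    simp only [LinearMap.comp_apply, omD_el, map_add, map_zsmul, muL_el, map_zero,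
      add_zero, zw, Int.negOnePow_zero, (cellB ρ).leib']
    simp
  exact LinearMap.congr_fun this x

end cell

end Pool.Agent.Helper54.NCM
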