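import Pool.Agent.Helper54.NCM.Smooth

/-!
# Finite cell dg algebras are smooth (conclusion)
-/

namespace Pool.Agent.Helper54.NCM

open scoped TensorProduct

variable {k : Type} [Field k]

variable {X Y : Type} [Fintype X] [Fintype Y] [DecidableEq X] [DecidableEq Y]
  (ρ : Y → FreeAlgebra k X)

theorem deL_mem {n : ℤ} {x : Om (cellB ρ) (X ⊕ Y)}
    (hx : x ∈ gradeOf (omBasis (cellB ρ)) (omWt (cellB ρ) wtG) n) :
    deL ρ x ∈ gradeOf (omBasis (cellB ρ)) (omWt (cellB ρ) zw) n := by
  have := map_mem_gradeOf (S := gradeOf (omBasis (cellB ρ)) (omWt (cellB ρ) zw)) (deL ρ) 0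
    (fun i => ?_) hx
  · simpa using this
  · rw [add_zero]
    obtain ⟨g, u, v⟩ := i
    have e : el (cellB ρ) g ((cellB ρ).b u ⊗ₜ (cellB ρ).b v) =
        lact (cellB ρ) ((cellB ρ).b u) (ract (cellB ρ) ((cellB ρ).b v)
          (el (cellB ρ) g (1 ⊗ₜ 1))) := by simp
    rw [omBasis_apply, e, deL_lact, deL_ract, deL_el]
    have hu := basis_mem_gradeOf (cellB ρ).b (cellB ρ).wt u
    have hv := basis_mem_gradeOf (cellB ρ).b (cellB ρ).wt v
    have h1 := lact_mem (cellB ρ) zw (m_mem ρ [g]) (el_one_mem (cellB ρ) zw ())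
    have h2 := ract_mem (cellB ρ) zw (m_mem ρ [g]) (el_one_mem (cellB ρ) zw ())
    rw [lact_el] at h1
    rw [ract_el] at h2
    have hw : wtW [g] + zw () = wtG g := by simp [wtW, zw]
    have hw' : zw () + wtW [g] = wtG g := by simp [wtW, zw]
    rw [hw, mul_one] at h1
    rw [hw', one_mul] at h2
    have h3 := lact_mem (cellB ρ) zw hu (ract_mem (cellB ρ) zw hv (Submodule.sub_mem _ h1 h2))
    rw [one_mul, mul_one]
    convert h3 using 2
    simp only [omWt]; ring

theorem muL_mem {n : ℤ} {x : Om (cellB ρ) Unit}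
    (hx : x ∈ gradeOf (omBasis (cellB ρ)) (omWt (cellB ρ) zw) n) :
    muL ρ x ∈ gradeOf (cellB ρ).b (cellB ρ).wt n := by
  have := map_mem_gradeOf (S := gradeOf (cellB ρ).b (cellB ρ).wt) (muL ρ) 0 (fun i => ?_) hx
  · simpa using this
  · rw [add_zero]
    obtain ⟨⟨⟩, u, v⟩ := i
    rw [omBasis_apply, muL_el]
    have := (cellB ρ).mul_mem' u v
    simpa [omWt, zw] using this

/-- the inclusion `Ω → A ⊗ A` -/
noncomputable def deM : DGBimod.Mor (OmC ρ) (PC ρ) where
  toFun := deL ρ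
  map_l := deL_lact ρ
  map_r := deL_ract ρ
  map_deg := deL_mem ρ
  map_d := deL_omD ρ

theorem muL_lact (a : (cellB ρ).A) (x : Om (cellB ρ) Unit) :
    muL ρ (lact (cellB ρ) a x) = a * muL ρ x := by
  have : muL ρ ∘ₗ lact (cellB ρ) a = LinearMap.mulLeft k a ∘ₗ muL ρ := by
    refine om_ext _ fun g u v => ?_
    obtain ⟨⟩ := g
    simp only [LinearMap.comp_apply, lact_el, muL_el, LinearMap.mulLeft_apply, mul_assoc]
  exact LinearMap.congr_fun this x

theorem muL_ract (a : (cellB ρ).A) (x : Om (cellB ρ) Unit) :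
    muL ρ (ract (cellB ρ) a x) = muL ρ x * a := by
  have : muL ρ ∘ₗ ract (cellB ρ) a = LinearMap.mulRight k a ∘ₗ muL ρ := by
    refine om_ext _ fun g u v => ?_
    obtain ⟨⟩ := g
    simp only [LinearMap.comp_apply, ract_el, muL_el, LinearMap.mulRight_apply, mul_assoc]
  exact LinearMap.congr_fun this x

/-- the multiplication `A ⊗ A → A` -/
noncomputable def muM : DGBimod.Mor (PC ρ) (cellB ρ).toDGAlg.diagonal where
  toFun := muL ρ
  map_l := muL_lact ρ
  map_r := muL_ract ρ
  map_deg := muL_mem ρ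
  map_d := muL_omD ρ

/-- the free bimodule on the generators of degree zero -/
noncomputable def XC : DGBimod (cellB ρ).toDGAlg := twFree (cellB ρ) (fun x : X => wtG (Sum.inl x : X ⊕ Y))

/-- the free bimodule on the generators of degree `-1` -/
noncomputable def YC : DGBimod (cellB ρ).toDGAlg := twFree (cellB ρ) (fun y : Y => wtG (Sum.inr y : X ⊕ Y))

/-- inclusion -/
noncomputable def inX : Om (cellB ρ) X →ₗ[k] Om (cellB ρ) (X ⊕ Y) :=
  LinearMap.lsum k (fun _ => (cellB ρ).A ⊗[k] (cellB ρ).A) k fun x => el (cellB ρ) (Sum.inl x)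

theorem inX_el (x : X) (t : (cellB ρ).A ⊗[k] (cellB ρ).A) :
    inX ρ (el (cellB ρ) x t) = el (cellB ρ) (Sum.inl x) t := by
  simp only [inX, el]
  rw [LinearMap.coe_single, LinearMap.lsum_piSingle]

/-- projection -/
noncomputable def prY : Om (cellB ρ) (X ⊕ Y) →ₗ[k] Om (cellB ρ) Y :=
  LinearMap.funLeft k _ Sum.inr

theorem prY_el_inr (y : Y) (t : (cellB ρ).A ⊗[k] (cellB ρ).A) :
    prY ρ (el (cellB ρ) (Sum.inr y) t) = el (cellB ρ) y t := by
  funext j
  by_cases h : j = y
  · subst h; simp [prY, el]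
  · have : (Sum.inr j : X ⊕ Y) ≠ Sum.inr y := fun h' => h (Sum.inr_injective h')
    simp [prY, el, Pi.single_eq_of_ne h, LinearMap.funLeft_apply, Pi.single_eq_of_ne this]

theorem prY_el_inl (x : X) (t : (cellB ρ).A ⊗[k] (cellB ρ).A) :
    prY ρ (el (cellB ρ) (Sum.inl x) t) = 0 := by
  funext j
  have : (Sum.inr j : X ⊕ Y) ≠ Sum.inl x := by simp
  simp [prY, el, LinearMap.funLeft_apply, Pi.single_eq_of_ne this]

theorem inX_lact (a : (cellB ρ).A) (x : Om (cellB ρ) X) :
    inX ρ (lact (cellB ρ) a x) = lact (cellB ρ) a (inX ρ x) := by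
  have : inX ρ ∘ₗ lact (cellB ρ) a = lact (cellB ρ) a ∘ₗ inX ρ :=
    om_ext _ fun g u v => by simp [inX_el]
  exact LinearMap.congr_fun this x

theorem inX_ract (a : (cellB ρ).A) (x : Om (cellB ρ) X) :
    inX ρ (ract (cellB ρ) a x) = ract (cellB ρ) a (inX ρ x) := by
  have : inX ρ ∘ₗ ract (cellB ρ) a = ract (cellB ρ) a ∘ₗ inX ρ :=
    om_ext _ fun g u v => by simp [inX_el]
  exact LinearMap.congr_fun this x

theorem prY_lact (a : (cellB ρ).A) (x : Om (cellB ρ) (X ⊕ Y)) :
    prY ρ (lact (cellB ρ) a x) = lact (cellB ρ) a (prY ρ x) := rfl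

theorem prY_ract (a : (cellB ρ).A) (x : Om (cellB ρ) (X ⊕ Y)) :
    prY ρ (ract (cellB ρ) a x) = ract (cellB ρ) a (prY ρ x) := rfl

theorem inX_mem {n : ℤ} {x : Om (cellB ρ) X}
    (hx : x ∈ gradeOf (omBasis (cellB ρ)) (omWt (cellB ρ) fun x : X => wtG (Sum.inl x : X ⊕ Y)) n) :
    inX ρ x ∈ gradeOf (omBasis (cellB ρ)) (omWt (cellB ρ) wtG) n := by
  have := map_mem_gradeOf (S := gradeOf (omBasis (cellB ρ)) (omWt (cellB ρ) wtG)) (inX ρ) 0
    (fun i => ?_) hx
  · simpa using this
  · rw [add_zero]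
    obtain ⟨g, u, v⟩ := i
    have := basis_mem_gradeOf (omBasis (cellB ρ) (I := X ⊕ Y)) (omWt (cellB ρ) wtG)
      ⟨Sum.inl g, (u, v)⟩
    rw [omBasis_apply] at this ⊢
    have h2 := inX_el ρ g ((cellB ρ).b u ⊗ₜ (cellB ρ).b v)
    rw [h2]
    exact this

theorem prY_mem {n : ℤ} {x : Om (cellB ρ) (X ⊕ Y)}
    (hx : x ∈ gradeOf (omBasis (cellB ρ)) (omWt (cellB ρ) wtG) n) :
    prY ρ x ∈ gradeOf (omBasis (cellB ρ)) (omWt (cellB ρ) fun y : Y => wtG (Sum.inr y : X ⊕ Y)) n := by
  have := map_mem_gradeOf (S := gradeOf (omBasis (cellB ρ))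
    (omWt (cellB ρ) fun y : Y => wtG (Sum.inr y : X ⊕ Y))) (prY ρ) 0
    (fun i => ?_) hx
  · simpa using this
  · rw [add_zero]
    obtain ⟨g, u, v⟩ := i
    rw [omBasis_apply]
    rcases g with x | y
    · rw [prY_el_inl]; exact Submodule.zero_mem _
    · have := basis_mem_gradeOf (omBasis (cellB ρ))
        (omWt (cellB ρ) fun y : Y => wtG (Sum.inr y : X ⊕ Y)) ⟨y, (u, v)⟩
      rw [omBasis_apply] at this
      rw [prY_el_inr]
      exact this

theorem τc_inl (x : X) : τc ρ (Sum.inl x) = 0 := by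
  have : Rc ρ (Sum.inl x) = 0 := rfl
  rw [τc, this, map_zero]

theorem prY_τc (g : X ⊕ Y) : prY ρ (τc ρ g) = 0 := by
  rcases g with x | y
  · rw [τc_inl, map_zero]
  · have h : ∀ a : FreeAlgebra k X, prY ρ (De ρ (emb a : FA k X Y)) = 0 := by
      intro a
      induction a using FreeAlgebra.induction with
      | grade0 r =>
        rw [AlgHom.commutes, Algebra.algebraMap_eq_smul_one]
        have : De ρ (r • (1 : (cellB ρ).A)) = 0 := by rw [map_smul, De_one, smul_zero]
        exact (congrArg (prY ρ) this).trans (map_zero _)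
      | grade1 x =>
        have : De ρ (m ρ [Sum.inl x]) = el (cellB ρ) (Sum.inl x) (1 ⊗ₜ 1) := De_gen ρ (Sum.inl x)
        have e : (emb (FreeAlgebra.ι k x) : FA k X Y) = mon [Sum.inl x] := by simp [emb]
        rw [e]
        exact (congrArg (prY ρ) this).trans (prY_el_inl ρ x _)
      | mul a b ha hb =>
        rw [map_mul]
        have := De_mul ρ (emb a : FA k X Y) (emb b : FA k X Y)
        refine (congrArg (prY ρ) this).trans ?_
        rw [map_add, prY_ract, prY_lact, ha, hb, map_zero, map_zero, add_zero]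
      | add a b ha hb =>
        rw [map_add]
        have := map_add (De ρ) (emb a : FA k X Y) (emb b : FA k X Y)
        refine (congrArg (prY ρ) this).trans ?_
        rw [map_add]
        exact (congrArg₂ (· + ·) ha hb).trans (add_zero _)
    exact h (ρ y)

theorem inX_omD (x : Om (cellB ρ) X) :
    inX ρ (omD (cellB ρ) (fun x : X => wtG (Sum.inl x : X ⊕ Y)) (fun _ => 0) x) =
      omD (cellB ρ) wtG (τc ρ) (inX ρ x) := by
  have : inX ρ ∘ₗ omD (cellB ρ) (fun x : X => wtG (Sum.inl x : X ⊕ Y)) (fun _ => 0) =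
      omD (cellB ρ) wtG (τc ρ) ∘ₗ inX ρ := by
    refine om_ext _ fun g u v => ?_
    simp only [LinearMap.comp_apply, omD_el, inX_el, τc_inl, map_add, map_zero, map_zsmul]
  exact LinearMap.congr_fun this x

theorem prY_omD (x : Om (cellB ρ) (X ⊕ Y)) :
    prY ρ (omD (cellB ρ) wtG (τc ρ) x) =
      omD (cellB ρ) (fun y : Y => wtG (Sum.inr y : X ⊕ Y)) (fun _ => 0) (prY ρ x) := by
  have : prY ρ ∘ₗ omD (cellB ρ) wtG (τc ρ) =
      omD (cellB ρ) (fun y : Y => wtG (Sum.inr y : X ⊕ Y)) (fun _ => 0) ∘ₗ prY ρ := by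
    refine om_ext _ fun g u v => ?_
    rcases g with x | y
    · simp only [LinearMap.comp_apply, omD_el, map_add, map_zsmul, prY_el_inl, τc_inl, map_zero,
        smul_zero, add_zero]
    · simp only [LinearMap.comp_apply, omD_el, map_add, map_zsmul, prY_el_inr, prY_lact,
        prY_ract, prY_τc, map_zero]
  exact LinearMap.congr_fun this x

theorem OmC_isPerfect : (OmC ρ).IsPerfect := by
  refine DGBimod.IsPerfect.ext_mid (XC ρ) (OmC ρ) (YC ρ)
    ⟨inX ρ, inX_lact ρ, inX_ract ρ, inX_mem ρ, inX_omD ρ⟩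
    ⟨prY ρ, prY_lact ρ, prY_ract ρ, prY_mem ρ, prY_omD ρ⟩ ?_ ?_ ?_
    (.free _ (twFree_isFiniteFree _ _)) (.free _ (twFree_isFiniteFree _ _))
  · have h : ∀ x : Om (cellB ρ) X, LinearMap.funLeft k _ (Sum.inl : X → X ⊕ Y) (inX ρ x) = x := by
      intro x
      have : LinearMap.funLeft k _ (Sum.inl : X → X ⊕ Y) ∘ₗ inX ρ = LinearMap.id := by
        refine om_ext _ fun g u v => ?_
        rw [LinearMap.comp_apply, inX_el]
        funext j
        by_cases h : j = g
        · subst h; simp [el, LinearMap.funLeft_apply]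
        · have : (Sum.inl j : X ⊕ Y) ≠ Sum.inl g := fun h' => h (Sum.inl_injective h')
          simp [el, Pi.single_eq_of_ne h, LinearMap.funLeft_apply, Pi.single_eq_of_ne this]
      exact LinearMap.congr_fun this x
    exact Function.LeftInverse.injective h
  · intro y
    refine ⟨Sum.elim 0 y, rfl⟩
  · ext x
    constructor
    · intro hx
      refine ⟨fun i => x (Sum.inl i), ?_⟩
      have hx' : prY ρ x = 0 := hx
      change inX ρ _ = x
      have e : inX ρ (fun i => x (Sum.inl i)) = Sum.elim (fun i => x (Sum.inl i)) 0 := by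
        rw [inX, LinearMap.lsum_apply]
        rw [LinearMap.sum_apply]
        funext j
        rw [Finset.sum_apply]
        rcases j with j | j
        · rw [Finset.sum_eq_single j]
          · simp [el]
          · intro b _ hb
            have : (Sum.inl j : X ⊕ Y) ≠ Sum.inl b := fun h' => hb (Sum.inl_injective h').symm
            simp [el, Pi.single_eq_of_ne this]
          · simp
        · refine Finset.sum_eq_zero fun b _ => ?_
          have : (Sum.inr j : X ⊕ Y) ≠ Sum.inl b := by simp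
          simp [el, Pi.single_eq_of_ne this]
      rw [e]
      funext j
      rcases j with j | j
      · rfl
      · exact (congrFun hx' j).symm
    · rintro ⟨y, rfl⟩
      change prY ρ (inX ρ y) = 0
      have : prY ρ ∘ₗ inX ρ = 0 := by
        refine om_ext _ fun g u v => ?_
        rw [LinearMap.comp_apply, inX_el, prY_el_inl]; rfl
      exact LinearMap.congr_fun this y

/-- A finite cell dg algebra is smooth. -/
theorem cell_isSmooth : (cellB ρ).toDGAlg.IsSmooth := by
  refine DGBimod.IsPerfect.ext_right (OmC ρ) (PC ρ) _ (deM ρ) (muM ρ) ?_ ?_ ?_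
    (OmC_isPerfect ρ) (.free _ (twFree_isFiniteFree _ _))
  · exact Function.LeftInverse.injective (hL_deL ρ)
  · intro a
    refine ⟨el (cellB ρ) () (1 ⊗ₜ a), ?_⟩
    exact (muL_el ρ 1 a).trans (one_mul (M := (cellB ρ).A) a)
  · ext x
    constructor
    · intro hx
      have hx' : muL ρ x = 0 := hx
      refine ⟨hL ρ x, ?_⟩
      have := deL_hL ρ x
      rw [hx'] at this
      refine this.trans ?_
      simp
    · rintro ⟨y, rfl⟩
      exact muL_deL ρ y

end Pool.Agent.Helper54.NCM
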