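import Pool.Agent.Helper54.NCM.Based

/-!
# dg algebras with a homogeneous basis and their twisted finite free bimodules
-/

namespace Pool.Agent.Helper54.NCM

open scoped TensorProduct

variable {k : Type} [Field k]

/-- A dg algebra with a chosen homogeneous basis. -/
structure BDG (k : Type) [Field k] where
  A : Type
  [ring : Ring A]
  [algebra : Algebra k A]
  ι : Type
  b : Module.Basis ι k A
  wt : ι → ℤ
  one_mem : (1 : A) ∈ gradeOf b wt 0
  mul_mem' : ∀ i j, b i * b j ∈ gradeOf b wt (wt i + wt j)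
  d : A →ₗ[k] A
  d_mem' : ∀ i, d (b i) ∈ gradeOf b wt (wt i + 1)
  d_d : ∀ a, d (d a) = 0
  leib : ∀ x y, d (x * y) = d x * y + sgn b wt x * d y

attribute [instance] BDG.ring BDG.algebra

namespace BDG

variable (B : BDG k)

/-- the sign involution -/
noncomputable def α : B.A →ₗ[k] B.A := sgn B.b B.wt

theorem leib' (x y : B.A) : B.d (x * y) = B.d x * y + B.α x * B.d y := B.leib x y

theorem mul_mem {m n : ℤ} {x y : B.A} (hx : x ∈ gradeOf B.b B.wt m) (hy : y ∈ gradeOf B.b B.wt n) :
    x * y ∈ gradeOf B.b B.wt (m + n) :=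
  map₂_mem_gradeOf (LinearMap.mul k B.A) B.mul_mem' hx hy

theorem d_mem {n : ℤ} {x : B.A} (hx : x ∈ gradeOf B.b B.wt n) :
    B.d x ∈ gradeOf B.b B.wt (n + 1) :=
  map_mem_gradeOf B.d 1 B.d_mem' hx

theorem α_mem {n : ℤ} {x : B.A} (hx : x ∈ gradeOf B.b B.wt n) :
    B.α x = (n.negOnePow : ℤ) • x := sgn_of_mem hx

theorem α_α (x : B.A) : B.α (B.α x) = x := sgn_sgn _ _ x

theorem α_d (x : B.A) : B.α (B.d x) = - B.d (B.α x) := by
  have : B.α ∘ₗ B.d = - (B.d ∘ₗ B.α) := by
    refine B.b.ext fun i => ?_
    simp only [LinearMap.comp_apply, LinearMap.neg_apply]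
    rw [B.α_mem (B.d_mem (basis_mem_gradeOf _ _ i)), B.α_mem (basis_mem_gradeOf _ _ i),
      map_zsmul, Int.negOnePow_succ]
    simp
  exact LinearMap.congr_fun this x

theorem α_mul (x y : B.A) : B.α (x * y) = B.α x * B.α y := by
  have : (LinearMap.mul k B.A).compr₂ B.α = (LinearMap.mul k B.A).compl₁₂ B.α B.α := by
    refine B.b.ext fun i => B.b.ext fun j => ?_
    simp only [LinearMap.compr₂_apply, LinearMap.mul_apply', LinearMap.compl₁₂_apply]
    rw [B.α_mem (B.mul_mem (basis_mem_gradeOf _ _ i) (basis_mem_gradeOf _ _ j)),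
      B.α_mem (basis_mem_gradeOf _ _ i), B.α_mem (basis_mem_gradeOf _ _ j),
      Int.negOnePow_add, smul_mul_smul_comm]
    simp
  exact LinearMap.congr_fun (LinearMap.congr_fun this x) y

theorem α_one : B.α 1 = 1 := by
  rw [B.α_mem B.one_mem]; simp

/-- The underlying dg algebra. -/
noncomputable def toDGAlg : DGAlg k where
  carrier := B.A
  deg := gradeOf B.b B.wt
  internal := gradeOf_internal _ _
  one_mem := B.one_mem
  mul_mem := B.mul_mem
  d := B.d
  d_mem := B.d_mem
  d_d := B.d_d
  leibniz y hx := by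
    rw [B.leib', B.α_mem hx, smul_mul_assoc]

end BDG

section tw

variable (B : BDG k) (I : Type) [Fintype I] [DecidableEq I] (w : I → ℤ)

/-- underlying module `⊕_i A ⊗ A` -/
abbrev Om : Type := I → B.A ⊗[k] B.A

variable {I}

/-- basis of `Om` -/
noncomputable def omBasis : Module.Basis ((_ : I) × (B.ι × B.ι)) k (Om B I) :=
  Pi.basis fun _ => B.b.tensorProduct B.b

/-- weights of the basis vectors of `Om` -/
def omWt : ((_ : I) × (B.ι × B.ι)) → ℤ := fun x => B.wt x.2.1 + w x.1 + B.wt x.2.2

/-- the element `u [i] v` -/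
noncomputable def el (i : I) : B.A ⊗[k] B.A →ₗ[k] Om B I := LinearMap.single k (fun _ : I => B.A ⊗[k] B.A) i

theorem omBasis_apply (i : I) (u v : B.ι) :
    omBasis B ⟨i, (u, v)⟩ = el B i (B.b u ⊗ₜ B.b v) := by
  simp [omBasis, el, Module.Basis.tensorProduct_apply]

/-- left action -/
noncomputable def lact : B.A →ₗ[k] Om B I →ₗ[k] Om B I :=
  LinearMap.mk₂ k (fun a m i => TensorProduct.map (LinearMap.mulLeft k a) LinearMap.id (m i))
    (fun a a' m => by
      funext i
      have : LinearMap.mulLeft k (a + a') = LinearMap.mulLeft k a + LinearMap.mulLeft k a' := by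
        ext; simp [add_mul]
      simp [this, TensorProduct.map_add_left])
    (fun c a m => by
      funext i
      have : LinearMap.mulLeft k (c • a) = c • LinearMap.mulLeft k a := by
        ext; simp
      simp [this, TensorProduct.map_smul_left])
    (fun a m m' => by funext i; simp)
    (fun a c m => by funext i; simp)

/-- right action -/
noncomputable def ract : B.A →ₗ[k] Om B I →ₗ[k] Om B I :=
  LinearMap.mk₂ k (fun a m i => TensorProduct.map LinearMap.id (LinearMap.mulRight k a) (m i))
    (fun a a' m => by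
      funext i
      have : LinearMap.mulRight k (a + a') = LinearMap.mulRight k a + LinearMap.mulRight k a' := by
        ext; simp [mul_add]
      simp [this, TensorProduct.map_add_right])
    (fun c a m => by
      funext i
      have : LinearMap.mulRight k (c • a) = c • LinearMap.mulRight k a := by
        ext; simp
      simp [this, TensorProduct.map_smul_right])
    (fun a m m' => by funext i; simp)
    (fun a c m => by funext i; simp)

@[simp] theorem lact_el (i : I) (a u v : B.A) :
    lact B a (el B i (u ⊗ₜ v)) = el B i ((a * u) ⊗ₜ v) := by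
  funext j
  by_cases h : j = i
  · subst h; simp [lact, el]
  · simp [lact, el, Pi.single_eq_of_ne h]

@[simp] theorem ract_el (i : I) (a u v : B.A) :
    ract B a (el B i (u ⊗ₜ v)) = el B i (u ⊗ₜ (v * a)) := by
  funext j
  by_cases h : j = i
  · subst h; simp [ract, el]
  · simp [ract, el, Pi.single_eq_of_ne h]

/-- linear maps out of `Om` agree if they agree on the `u [i] v` -/
theorem om_ext {N : Type} [AddCommGroup N] [Module k N] {f g : Om B I →ₗ[k] N}
    (h : ∀ i u v, f (el B i (u ⊗ₜ v)) = g (el B i (u ⊗ₜ v))) : f = g := by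
  refine LinearMap.pi_ext' fun i => ?_
  refine TensorProduct.ext' fun u v => ?_
  exact h i u v

theorem lact_one (m : Om B I) : lact B 1 m = m := by
  have : lact B (I := I) 1 = LinearMap.id := om_ext B fun i u v => by simp
  exact LinearMap.congr_fun this m

theorem ract_one (m : Om B I) : ract B 1 m = m := by
  have : ract B (I := I) 1 = LinearMap.id := om_ext B fun i u v => by simp
  exact LinearMap.congr_fun this m

theorem lact_mul (a b : B.A) (m : Om B I) : lact B (a * b) m = lact B a (lact B b m) := by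
  have : lact B (I := I) (a * b) = lact B a ∘ₗ lact B b :=
    om_ext B fun i u v => by simp [mul_assoc]
  exact LinearMap.congr_fun this m

theorem ract_mul (a b : B.A) (m : Om B I) : ract B (a * b) m = ract B b (ract B a m) := by
  have : ract B (I := I) (a * b) = ract B b ∘ₗ ract B a :=
    om_ext B fun i u v => by simp [mul_assoc]
  exact LinearMap.congr_fun this m

theorem lact_ract (a b : B.A) (m : Om B I) :
    lact B a (ract B b m) = ract B b (lact B a m) := by
  have : lact B (I := I) a ∘ₗ ract B b = ract B b ∘ₗ lact B a :=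
    om_ext B fun i u v => by simp
  exact LinearMap.congr_fun this m

/-- the map `u ⊗ v ↦ u t v` -/
noncomputable def actOn (t : Om B I) : B.A ⊗[k] B.A →ₗ[k] Om B I :=
  TensorProduct.lift ((ract B).flip t |>.comp LinearMap.id |> fun R =>
    LinearMap.mk₂ k (fun u v => lact B u (R v))
      (fun a a' b => by simp) (fun c a b => by simp) (fun a b b' => by simp)
      (fun c a b => by simp))

@[simp] theorem actOn_tmul (t : Om B I) (u v : B.A) :
    actOn B t (u ⊗ₜ v) = lact B u (ract B v t) := by
  simp [actOn]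

variable (τ : I → Om B I)

/-- the differential on `Om` with `d [i] = τ i` -/
noncomputable def omD : Om B I →ₗ[k] Om B I :=
  LinearMap.lsum k (fun _ => B.A ⊗[k] B.A) k fun i =>
    el B i ∘ₗ TensorProduct.map B.d LinearMap.id +
    actOn B (τ i) ∘ₗ TensorProduct.map B.α LinearMap.id +
    ((w i).negOnePow : ℤ) • (el B i ∘ₗ TensorProduct.map B.α B.d)

theorem omD_el (i : I) (u v : B.A) :
    omD B w τ (el B i (u ⊗ₜ v)) = el B i (B.d u ⊗ₜ v) + lact B (B.α u) (ract B v (τ i)) +
      ((w i).negOnePow : ℤ) • el B i (B.α u ⊗ₜ B.d v) := by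
  simp only [omD, el]
  rw [LinearMap.coe_single, LinearMap.lsum_piSingle]
  simp

/-- sign involution on `Om` -/
noncomputable def omα : Om B I →ₗ[k] Om B I := sgn (omBasis B) (omWt B w)

theorem omα_el (i : I) (u v : B.A) :
    omα B w (el B i (u ⊗ₜ v)) = ((w i).negOnePow : ℤ) • el B i (B.α u ⊗ₜ B.α v) := by
  have : (TensorProduct.mk k B.A B.A).compr₂ (omα B w ∘ₗ el B i) =
      (TensorProduct.mk k B.A B.A).compr₂
        (((w i).negOnePow : ℤ) • (el B i ∘ₗ TensorProduct.map B.α B.α)) := by
    refine B.b.ext fun u => B.b.ext fun v => ?_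
    simp only [LinearMap.compr₂_apply, TensorProduct.mk_apply, LinearMap.comp_apply,
      LinearMap.smul_apply, TensorProduct.map_tmul]
    rw [← omBasis_apply, omα, sgn_basis, B.α_mem (basis_mem_gradeOf _ _ u),
      B.α_mem (basis_mem_gradeOf _ _ v), omBasis_apply]
    simp only [omWt, Int.negOnePow_add, Units.val_mul]
    simp only [← Int.cast_smul_eq_zsmul k, ← TensorProduct.smul_tmul', TensorProduct.tmul_smul,
      map_smul, smul_smul]
    congr 1
    push_cast
    ring
  exact LinearMap.congr_fun₂ this u v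

theorem omD_lact (a : B.A) (m : Om B I) :
    omD B w τ (lact B a m) = lact B (B.d a) m + lact B (B.α a) (omD B w τ m) := by
  have : omD B w τ ∘ₗ lact B a = lact B (B.d a) + lact B (B.α a) ∘ₗ omD B w τ := by
    refine om_ext B fun i u v => ?_
    simp only [LinearMap.comp_apply, LinearMap.add_apply, lact_el, omD_el, map_add, map_zsmul,
      B.leib', B.α_mul, TensorProduct.add_tmul, lact_mul]
    abel
  exact LinearMap.congr_fun this m

theorem omD_ract (a : B.A) (m : Om B I) :
    omD B w τ (ract B a m) = ract B a (omD B w τ m) + ract B (B.d a) (omα B w m) := by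
  have : omD B w τ ∘ₗ ract B a = ract B a ∘ₗ omD B w τ + ract B (B.d a) ∘ₗ omα B w := by
    refine om_ext B fun i u v => ?_
    simp only [LinearMap.comp_apply, LinearMap.add_apply, ract_el, omD_el, map_add, map_zsmul,
      B.leib', omα_el, TensorProduct.tmul_add, ract_mul, lact_ract, smul_add]
    abel
  exact LinearMap.congr_fun this m

theorem lact_mem {n j : ℤ} {a : B.A} {m : Om B I} (ha : a ∈ gradeOf B.b B.wt n)
    (hm : m ∈ gradeOf (omBasis B) (omWt B w) j) :
    lact B a m ∈ gradeOf (omBasis B) (omWt B w) (n + j) := by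
  refine map₂_mem_gradeOf (lact B) ?_ ha hm
  rintro i ⟨t, u, v⟩
  rw [omBasis_apply, lact_el]
  have h := B.mul_mem' i u
  have key : ∀ x ∈ gradeOf B.b B.wt (B.wt i + B.wt u), el B t (x ⊗ₜ B.b v) ∈
      gradeOf (omBasis B) (omWt B w) (B.wt i + B.wt u + (w t + B.wt v)) := by
    intro x hx
    refine map_mem_gradeOf (S := gradeOf (omBasis B) (omWt B w))
      (el B t ∘ₗ (TensorProduct.mk k B.A B.A).flip (B.b v)) (w t + B.wt v) ?_ hx
    intro j
    have := basis_mem_gradeOf (omBasis B) (omWt B w) ⟨t, (j, v)⟩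
    rw [omBasis_apply] at this
    simpa [omWt, add_assoc] using this
  have := key _ h
  simpa [omWt, add_assoc] using this

theorem ract_mem {n j : ℤ} {a : B.A} {m : Om B I} (ha : a ∈ gradeOf B.b B.wt n)
    (hm : m ∈ gradeOf (omBasis B) (omWt B w) j) :
    ract B a m ∈ gradeOf (omBasis B) (omWt B w) (j + n) := by
  rw [add_comm]
  refine map₂_mem_gradeOf (ract B) ?_ ha hm
  rintro i ⟨t, u, v⟩
  rw [omBasis_apply, ract_el]
  have h := B.mul_mem' v i
  have key : ∀ x ∈ gradeOf B.b B.wt (B.wt v + B.wt i), el B t (B.b u ⊗ₜ x) ∈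
      gradeOf (omBasis B) (omWt B w) (B.wt v + B.wt i + (B.wt u + w t)) := by
    intro x hx
    refine map_mem_gradeOf (S := gradeOf (omBasis B) (omWt B w))
      (el B t ∘ₗ (TensorProduct.mk k B.A B.A) (B.b u)) (B.wt u + w t) ?_ hx
    intro j
    have := basis_mem_gradeOf (omBasis B) (omWt B w) ⟨t, (u, j)⟩
    rw [omBasis_apply] at this
    have e : B.wt j + (B.wt u + w t) = omWt B w ⟨t, (u, j)⟩ := by simp only [omWt]; ring
    rw [e]
    exact this
  have := key _ h
  have e : B.wt v + B.wt i + (B.wt u + w t) = B.wt i + omWt B w ⟨t, (u, v)⟩ := by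
    simp only [omWt]; ring
  rwa [e] at this

theorem el_one_mem (i : I) : el B i (1 ⊗ₜ 1) ∈ gradeOf (omBasis B) (omWt B w) (w i) := by
  have h1 : ∀ v, el B i (1 ⊗ₜ B.b v) ∈ gradeOf (omBasis B) (omWt B w) (0 + (w i + B.wt v)) := by
    intro v
    refine map_mem_gradeOf (S := gradeOf (omBasis B) (omWt B w))
      (el B i ∘ₗ (TensorProduct.mk k B.A B.A).flip (B.b v)) (w i + B.wt v) ?_ B.one_mem
    intro j
    have := basis_mem_gradeOf (omBasis B) (omWt B w) ⟨i, (j, v)⟩
    rw [omBasis_apply] at this
    simpa [omWt, add_assoc] using this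
  have h2 := map_mem_gradeOf (S := gradeOf (omBasis B) (omWt B w))
      (el B i ∘ₗ (TensorProduct.mk k B.A B.A) 1) (w i) (fun v => by
        have := h1 v
        rw [zero_add, add_comm] at this
        exact this) B.one_mem
  simpa using h2

theorem omD_mem (hτ : ∀ i, τ i ∈ gradeOf (omBasis B) (omWt B w) (w i + 1)) {n : ℤ} {m : Om B I}
    (hm : m ∈ gradeOf (omBasis B) (omWt B w) n) :
    omD B w τ m ∈ gradeOf (omBasis B) (omWt B w) (n + 1) := by
  refine map_mem_gradeOf (S := gradeOf (omBasis B) (omWt B w)) (omD B w τ) 1 ?_ hm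
  rintro ⟨i, u, v⟩
  rw [omBasis_apply]
  have e : el B i (B.b u ⊗ₜ[k] B.b v) = lact B (B.b u) (ract B (B.b v) (el B i (1 ⊗ₜ 1))) := by
    simp
  have h1 : omD B w τ (el B i (1 ⊗ₜ 1)) = τ i := by
    have hd : B.d 1 = 0 := by
      have := B.leib' 1 1
      rw [mul_one, B.α_one, mul_one, one_mul] at this
      simpa using this
    rw [omD_el]
    simp [hd, B.α_one, lact_one, ract_one]
  have hu := basis_mem_gradeOf B.b B.wt u
  have hv := basis_mem_gradeOf B.b B.wt v
  rw [e, omD_lact, omD_ract, h1, sgn_of_mem (el_one_mem B w i) |> (fun h => (h : omα B w _ = _))]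
  have hE := el_one_mem B w i
  refine Submodule.add_mem _ ?_ ?_
  · have := lact_mem B w (B.d_mem hu) (ract_mem B w hv hE)
    convert this using 2
    simp only [omWt]; ring
  · rw [B.α_mem hu, map_zsmul, LinearMap.smul_apply, map_add, map_zsmul, map_zsmul]
    refine zsmul_mem (Submodule.add_mem _ ?_ (zsmul_mem ?_ _)) _
    · have := lact_mem B w hu (ract_mem B w hv (hτ i))
      convert this using 2
      simp only [omWt]; ring
    · have := lact_mem B w hu (ract_mem B w (B.d_mem hv) hE)
      convert this using 2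
      simp only [omWt]; ring

theorem omD_omD (hτ : ∀ i, τ i ∈ gradeOf (omBasis B) (omWt B w) (w i + 1))
    (hd : ∀ i, omD B w τ (τ i) = 0) (m : Om B I) : omD B w τ (omD B w τ m) = 0 := by
  have : omD B w τ ∘ₗ omD B w τ = 0 := by
    refine om_ext B fun i u v => ?_
    have hα : omα B w (τ i) = -(((w i).negOnePow : ℤ) • τ i) := by
      rw [omα, sgn_of_mem (hτ i), Int.negOnePow_succ]; simp
    simp only [LinearMap.comp_apply, LinearMap.zero_apply]
    rw [omD_el, map_add, map_add, omD_el, omD_lact, omD_ract, hd, hα, map_zsmul, omD_el, B.d_d,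
      B.d_d, B.α_d, B.α_α]
    simp only [map_neg, LinearMap.neg_apply, map_zsmul, LinearMap.smul_apply, map_zero,
      TensorProduct.zero_tmul, TensorProduct.tmul_zero, TensorProduct.neg_tmul, smul_neg,
      smul_add, smul_zero, smul_smul, LinearMap.zero_apply]
    simp only [lact_ract, zero_add, map_neg, map_zsmul, add_zero]
    abel
  exact LinearMap.congr_fun this m

theorem omD_lact' {n : ℤ} {a : B.A} (m : Om B I) (ha : a ∈ gradeOf B.b B.wt n) :
    omD B w τ (lact B a m) = lact B (B.d a) m + (n.negOnePow : ℤ) • lact B a (omD B w τ m) := by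
  rw [omD_lact, B.α_mem ha, map_zsmul, LinearMap.smul_apply]

theorem omD_ract' {n : ℤ} {m : Om B I} (a : B.A) (hm : m ∈ gradeOf (omBasis B) (omWt B w) n) :
    omD B w τ (ract B a m) = ract B a (omD B w τ m) + (n.negOnePow : ℤ) • ract B (B.d a) m := by
  rw [omD_ract, omα, sgn_of_mem hm, map_zsmul]

/-- The twisted finite free dg bimodule. -/
noncomputable def tw (hτ : ∀ i, τ i ∈ gradeOf (omBasis B) (omWt B w) (w i + 1))
    (hd : ∀ i, omD B w τ (τ i) = 0) : DGBimod B.toDGAlg where
  carrier := Om B I
  deg := gradeOf (omBasis B) (omWt B w)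
  internal := gradeOf_internal _ _
  l := lact B
  r := ract B
  l_one := lact_one B
  l_mul := lact_mul B
  r_one := ract_one B
  r_mul := ract_mul B
  l_r := lact_ract B
  l_mem := lact_mem B w
  r_mem := ract_mem B w
  d := omD B w τ
  d_mem := omD_mem B w τ hτ
  d_d := omD_omD B w τ hτ hd
  leibniz_l m ha := omD_lact' B w τ m ha
  leibniz_r a hm := omD_ract' B w τ a hm

end tw

end Pool.Agent.Helper54.NCM
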